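import Pool.Agent.H72.CC.Cyl

/-! Integration in cylindrical coordinates. -/

set_option autoImplicit false

open Set Filter Topology MeasureTheory
open scoped ContDiff

namespace Pool.Agent.H73.SG

open Pool.Agent.H16 Pool.Agent.H87.NS Pool.Agent.H72.CC

/-- The point with cylindrical coordinates `ρ, θ, z`. -/
noncomputable def pt (ρ θ z : ℝ) : E3 := !₂[ρ * Real.cos θ, ρ * Real.sin θ, z]

/-- The point with Cartesian coordinates `a, b, z`. -/
noncomputable def ct (q : ℝ × (ℝ × ℝ)) : E3 := !₂[q.2.1, q.2.2, q.1]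

theorem ct_cont : Continuous ct := by
  unfold ct
  refine (PiLp.continuous_toLp 2 (fun _ : Fin 3 => ℝ)).comp ?_
  refine continuous_pi fun i => ?_
  fin_cases i
  · exact continuous_snd.fst
  · exact continuous_snd.snd
  · exact continuous_fst

theorem ct_x (x : E3) : ct (x 2, (x 0, x 1)) = x := by
  unfold ct
  ext i
  fin_cases i <;> rfl

theorem cart {F : E3 → ENNReal} (hF : Measurable F) :
    ∫⁻ x, F x = ∫⁻ z : ℝ, ∫⁻ p : ℝ × ℝ, F (ct (z, p)) := by
  have hg : Measurable (fun q : ℝ × (ℝ × ℝ) => F (ct q)) := hF.comp ct_cont.measurable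
  have h1 : ∫⁻ x : E3, F x = ∫⁻ x : E3, (fun q : ℝ × (ℝ × ℝ) => F (ct q)) (x 2, (x 0, x 1)) := by
    refine lintegral_congr fun x => ?_
    show F x = F (ct (x 2, (x 0, x 1)))
    rw [ct_x]
  rw [h1, Cyl_mp.lintegral_comp hg, Measure.volume_eq_prod, lintegral_prod _ hg.aemeasurable]

theorem pt_cont : Continuous (fun q : ℝ × ℝ × ℝ => pt q.1 q.2.1 q.2.2) := by
  unfold pt
  refine (PiLp.continuous_toLp 2 (fun _ : Fin 3 => ℝ)).comp ?_
  refine continuous_pi fun i => ?_
  fin_cases i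
  · exact continuous_fst.mul (Real.continuous_cos.comp continuous_snd.fst)
  · exact continuous_fst.mul (Real.continuous_sin.comp continuous_snd.fst)
  · exact continuous_snd.snd

theorem cyl3 {F : E3 → ENNReal} (hF : Measurable F) :
    ∫⁻ x, F x = ∫⁻ z : ℝ, ∫⁻ θ in Ioo (-Real.pi) Real.pi, ∫⁻ ρ in Ioi (0:ℝ), ENNReal.ofReal ρ * F (pt ρ θ z) := by
  rw [cart hF]
  refine lintegral_congr fun z => ?_
  rw [← lintegral_comp_polarCoord_symm (fun p : ℝ × ℝ => F (ct (z, p)))]
  have h1 : ∫⁻ p in polarCoord.target, ENNReal.ofReal p.1 • (fun p : ℝ × ℝ => F (ct (z, p))) (polarCoord.symm p) =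
      ∫⁻ p in polarCoord.target, ENNReal.ofReal p.1 * F (pt p.1 p.2 z) := by
    refine setLIntegral_congr_fun polarCoord.open_target.measurableSet fun p _ => ?_
    rfl
  have hm : Measurable (fun p : ℝ × ℝ => ENNReal.ofReal p.1 * F (pt p.1 p.2 z)) := by
    refine (ENNReal.measurable_ofReal.comp measurable_fst).mul (hF.comp ?_)
    have : Continuous (fun p : ℝ × ℝ => pt p.1 p.2 z) :=
      pt_cont.comp (continuous_fst.prodMk (continuous_snd.prodMk continuous_const))
    exact this.measurable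
  rw [h1, polarCoord_target, Measure.volume_eq_prod, ← Measure.prod_restrict, lintegral_prod_symm _ hm.aemeasurable]

theorem rad_pt {ρ : ℝ} (hρ : 0 ≤ ρ) (θ z : ℝ) : rad (pt ρ θ z) = ρ := by
  have h1 : (ρ * Real.cos θ) ^ 2 + (ρ * Real.sin θ) ^ 2 = ρ ^ 2 := by
    have := Real.sin_sq_add_cos_sq θ
    nlinarith
  show √((ρ * Real.cos θ) ^ 2 + (ρ * Real.sin θ) ^ 2) = ρ
  rw [h1, Real.sqrt_sq hρ]

theorem pt_two (ρ θ z : ℝ) : pt ρ θ z 2 = z := rfl

end Pool.Agent.H73.SG
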