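/-
The integral of |ω_θ/r| grows at most by the integral of sgn(ω_θ) ∂_z (u_θ/r)².
-/
import Pool.Agent.H87.NS.StepO

set_option autoImplicit false

open Set Filter Topology MeasureTheory
open scoped ContDiff

namespace Pool.Agent.H73.SG

open Pool.Agent.H16 Pool.Agent.H87.NS

variable {T : ℝ} {u : ℝ → E3 → E3} {V W Om : ℝ → E3 → ℝ}

/-- The source term `∂_z (V²)`. -/
noncomputable def src (V : E3 → ℝ) (x : E3) : ℝ := 2 * V x * pd 2 V x

/-- The regularisation parameter. -/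
noncomputable def kn (n : ℕ) : ℝ := 1 / ((n : ℝ) + 1)

theorem kn_pos (n : ℕ) : 0 < kn n := Nat.one_div_pos_of_nat

theorem kn_lim : Tendsto kn atTop (𝓝 0) := tendsto_one_div_add_atTop_nhds_zero_nat

theorem ja_sign (s : ℝ) : Tendsto (fun n : ℕ => deriv (ja (kn n)) s) atTop (𝓝 (Real.sign s)) := by
  have e1 : (fun n : ℕ => deriv (ja (kn n)) s) = fun n : ℕ => s / √(s ^ 2 + kn n ^ 2) :=
    funext fun n => (JQ_ja (kn_pos n) s).deriv
  rw [e1]
  rcases eq_or_ne s 0 with h0 | h0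
  · subst h0
    simp
  · have h1 : Tendsto (fun n : ℕ => √(s ^ 2 + kn n ^ 2)) atTop (𝓝 |s|) := by
      have h2 : Tendsto (fun n : ℕ => s ^ 2 + kn n ^ 2) atTop (𝓝 (s ^ 2)) := by
        have := (kn_lim.pow 2).const_add (s ^ 2)
        simpa using this
      have h3 := h2.sqrt
      rwa [Real.sqrt_sq_eq_abs] at h3
    have h2 := (tendsto_const_nhds (x := s)).div h1 (abs_ne_zero.2 h0)
    have e2 : s / |s| = Real.sign s := by
      rcases lt_or_gt_of_ne h0 with h | h
      · rw [abs_of_neg h, Real.sign_of_neg h, div_neg, div_self h0]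
      · rw [abs_of_pos h, Real.sign_of_pos h, div_self h0]
    rwa [e2] at h2

theorem sign_abs_le (s : ℝ) : |Real.sign s| ≤ 1 := by
  rcases lt_trichotomy s 0 with h | h | h
  · rw [Real.sign_of_neg h]
    norm_num
  · rw [h, Real.sign_zero]
    norm_num
  · rw [Real.sign_of_pos h]
    norm_num

theorem src_le (V : E3 → ℝ) (x : E3) : |src V x| ≤ 2 * (|V x| * √(gsq V x)) := by
  unfold src
  rw [abs_mul, abs_mul, abs_two, mul_assoc]
  exact mul_le_mul_of_nonneg_left (mul_le_mul_of_nonneg_left (pd_le_gsq V 2 x) (abs_nonneg _)) two_pos.le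

theorem src_jc (F : Flow T u V W Om) : JC T (fun t => src (V t)) := F.evO.contG

theorem src_cont (F : Flow T u V W Om) {t : ℝ} (ht : t ∈ Ico 0 T) : Continuous (src (V t)) := by
  have hsm : ContDiff ℝ 1 (V t) := (F.evV.smooth t ht).of_le (by exact_mod_cast le_top)
  unfold src
  exact (continuous_const.mul hsm.continuous).mul (pd_cont hsm 2)

theorem src_bd (F : Flow T u V W Om) {b : ℝ} (hb : b < T) :
    ∃ K : ℝ, 0 < K ∧ ∀ t ∈ Icc 0 b, Integrable (src (V t)) ∧ ∫ x, |src (V t) x| ≤ K := by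
  obtain ⟨K, hK0, hK⟩ := vdv_bd F hb
  refine ⟨2 * K, by positivity, fun t ht => ?_⟩
  have h1 := (hK t ht).1.const_mul 2
  have h2 : Integrable (src (V t)) := h1.mono' (src_cont F ⟨ht.1, ht.2.trans_lt hb⟩).aestronglyMeasurable
    (Eventually.of_forall fun x => src_le _ _)
  refine ⟨h2, ?_⟩
  refine (integral_mono h2.abs h1 fun x => src_le _ _).trans ?_
  rw [integral_const_mul]
  exact mul_le_mul_of_nonneg_left (hK t ht).2 two_pos.le

/-- The regularised and the limiting integrand. -/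
noncomputable def fk (V Om : ℝ → E3 → ℝ) (κ : ℝ) (t : ℝ) (x : E3) : ℝ := deriv (ja κ) (Om t x) * src (V t) x
noncomputable def fi (V Om : ℝ → E3 → ℝ) (t : ℝ) (x : E3) : ℝ := Real.sign (Om t x) * src (V t) x

theorem fk_le {κ : ℝ} (hκ : 0 < κ) (t : ℝ) (x : E3) : |fk V Om κ t x| ≤ |src (V t) x| := by
  unfold fk
  rw [abs_mul]
  exact mul_le_of_le_one_left (abs_nonneg _) (ja_deriv hκ _)

theorem fi_le (t : ℝ) (x : E3) : |fi V Om t x| ≤ |src (V t) x| := by
  unfold fi
  rw [abs_mul]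
  exact mul_le_of_le_one_left (abs_nonneg _) (sign_abs_le _)

theorem fk_lim (t : ℝ) (x : E3) : Tendsto (fun n => fk V Om (kn n) t x) atTop (𝓝 (fi V Om t x)) :=
  (ja_sign _).mul_const _

theorem fk_jc (F : Flow T u V W Om) {κ : ℝ} (hκ : 0 < κ) : JC T (fk V Om κ) :=
  (evo_jc F.evO (ja_jfun hκ)).2.2.1

theorem fk_cont (F : Flow T u V W Om) {κ : ℝ} (hκ : 0 < κ) {t : ℝ} (ht : t ∈ Ico 0 T) : Continuous (fk V Om κ t) := by
  have h1 : Continuous (Om t) := (F.evO.smooth t ht).continuous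
  have h2 : ContDiff ℝ ∞ (ja κ) := (ja_jfun hκ).smooth
  have h3 : Continuous (deriv (ja κ)) := h2.continuous_deriv (by simp)
  exact (h3.comp h1).mul (src_cont F ht)

theorem fk_int (F : Flow T u V W Om) {κ : ℝ} (hκ : 0 < κ) {t : ℝ} (ht : t ∈ Ico 0 T) : Integrable (fk V Om κ t) := by
  obtain ⟨K, _, hK⟩ := src_bd F ht.2
  exact (hK t ⟨ht.1, le_rfl⟩).1.abs.mono' (fk_cont F hκ ht).aestronglyMeasurable
    (Eventually.of_forall fun x => fk_le hκ _ _)

theorem fi_int (F : Flow T u V W Om) {t : ℝ} (ht : t ∈ Ico 0 T) : Integrable (fi V Om t) := by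
  obtain ⟨K, _, hK⟩ := src_bd F ht.2
  refine (hK t ⟨ht.1, le_rfl⟩).1.abs.mono' ?_ (Eventually.of_forall fun x => fi_le _ _)
  exact aestronglyMeasurable_of_tendsto_ae atTop (fun n => (fk_cont F (kn_pos n) ht).aestronglyMeasurable)
    (Eventually.of_forall fun x => fk_lim t x)

theorem sg_lim (F : Flow T u V W Om) {t : ℝ} (ht : t ∈ Ico 0 T) (E : Set E3) :
    Tendsto (fun n => ∫ x in E, fk V Om (kn n) t x) atTop (𝓝 (∫ x in E, fi V Om t x)) := by
  obtain ⟨K, _, hK⟩ := src_bd F ht.2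
  exact tendsto_integral_of_dominated_convergence (fun x => |src (V t) x|)
    (fun n => (fk_cont F (kn_pos n) ht).aestronglyMeasurable) (hK t ⟨ht.1, le_rfl⟩).1.abs.integrableOn
    (fun n => Eventually.of_forall fun x => fk_le (kn_pos n) _ _) (Eventually.of_forall fun x => fk_lim t x)

/-- Measurable families of sets. -/
def MF (E : ℝ → Set E3) : Prop := MeasurableSet {q : ℝ × E3 | q.2 ∈ E q.1}

theorem MF.slice {E : ℝ → Set E3} (hE : MF E) (t : ℝ) : MeasurableSet (E t) := by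
  have h : Measurable (fun x : E3 => (t, x)) := measurable_prodMk_left
  exact h hE

theorem MF.cpl {E : ℝ → Set E3} (hE : MF E) : MF (fun t => (E t)ᶜ) := MeasurableSet.compl hE

theorem MF_const {S : Set E3} (hS : MeasurableSet S) : MF (fun _ => S) := measurable_snd hS

theorem sg_meas {Φ : ℝ → E3 → ℝ} (hΦ : JC T Φ) {E : ℝ → Set E3} (hE : MF E) {a b : ℝ} (ha : 0 ≤ a) (hb : b < T) :
    AEStronglyMeasurable (fun t => ∫ x in E t, Φ t x) (volume.restrict (Icc a b)) := by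
  have hsub : Icc a b ×ˢ (univ : Set E3) ⊆ Ico 0 T ×ˢ univ :=
    Set.prod_mono (fun t ht => ⟨ha.trans ht.1, ht.2.trans_lt hb⟩) (le_refl _)
  have h1 : AEStronglyMeasurable (fun q : ℝ × E3 => Φ q.1 q.2)
      ((volume : Measure (ℝ × E3)).restrict (Icc a b ×ˢ univ)) :=
    (ContinuousOn.mono hΦ hsub).aestronglyMeasurable (measurableSet_Icc.prod MeasurableSet.univ)
  have h2 := h1.indicator hE
  rw [Measure.volume_eq_prod, ← Measure.prod_restrict, Measure.restrict_univ] at h2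
  have h3 := h2.integral_prod_right'
  refine h3.congr (Eventually.of_forall fun t => ?_)
  show ∫ x, {q : ℝ × E3 | q.2 ∈ E q.1}.indicator (fun q : ℝ × E3 => Φ q.1 q.2) (t, x) = ∫ x in E t, Φ t x
  rw [← integral_indicator (hE.slice t)]
  rfl

theorem sg_nrm {b K : ℝ}
    (hK : ∀ t ∈ Icc 0 b, Integrable (src (V t)) ∧ ∫ x, |src (V t) x| ≤ K) {t : ℝ} (ht : t ∈ Icc 0 b) (E : Set E3)
    {g : E3 → ℝ} (hgm : Integrable g) (hg : ∀ x, |g x| ≤ |src (V t) x|) : ‖∫ x in E, g x‖ ≤ K := by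
  refine (norm_integral_le_integral_norm _).trans ?_
  refine (setIntegral_le_integral hgm.norm (Eventually.of_forall fun x => norm_nonneg _)).trans ?_
  refine (integral_mono hgm.norm (hK t ht).1.abs fun x => hg x).trans (hK t ht).2

theorem fk_ii (F : Flow T u V W Om) {κ : ℝ} (hκ : 0 < κ) {E : ℝ → Set E3} (hE : MF E) {a b : ℝ} (ha : 0 ≤ a) (hab : a ≤ b)
    (hb : b < T) : IntervalIntegrable (fun t => ∫ x in E t, fk V Om κ t x) volume a b := by
  obtain ⟨K, _, hK⟩ := src_bd F hb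
  rw [intervalIntegrable_iff_integrableOn_Icc_of_le hab]
  refine Integrable.of_bound (sg_meas (fk_jc F hκ) hE ha hb) K ?_
  exact ae_restrict_of_forall_mem measurableSet_Icc fun t ht =>
    sg_nrm hK ⟨ha.trans ht.1, ht.2⟩ (E t) (fk_int F hκ ⟨ha.trans ht.1, ht.2.trans_lt hb⟩) fun x => fk_le hκ _ _

theorem fi_ii (F : Flow T u V W Om) {E : ℝ → Set E3} (hE : MF E) {a b : ℝ} (ha : 0 ≤ a) (hab : a ≤ b) (hb : b < T) :
    IntervalIntegrable (fun t => ∫ x in E t, fi V Om t x) volume a b := by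
  obtain ⟨K, _, hK⟩ := src_bd F hb
  have hT : ∀ t ∈ Icc a b, t ∈ Ico 0 T := fun t ht => ⟨ha.trans ht.1, ht.2.trans_lt hb⟩
  have h0 : ∀ t ∈ Icc a b, t ∈ Icc 0 b := fun t ht => ⟨ha.trans ht.1, ht.2⟩
  have hm : AEStronglyMeasurable (fun t => ∫ x in E t, fi V Om t x) (volume.restrict (Icc a b)) := by
    refine aestronglyMeasurable_of_tendsto_ae atTop (fun n => sg_meas (fk_jc F (kn_pos n)) hE ha hb) ?_
    exact ae_restrict_of_forall_mem measurableSet_Icc fun t ht => sg_lim F (hT t ht) (E t)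
  rw [intervalIntegrable_iff_integrableOn_Icc_of_le hab]
  refine Integrable.of_bound hm K ?_
  exact ae_restrict_of_forall_mem measurableSet_Icc fun t ht =>
    sg_nrm hK (h0 t ht) (E t) (fi_int F (hT t ht)) fun x => fi_le _ _

end Pool.Agent.H73.SG
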