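/-
The source term away from the axis.
-/
import Pool.Agent.H73.SG.Sg
import Pool.Agent.H87.NS.Pig
import Pool.Agent.H87.NS.Init
import Pool.Agent.H87.NS.FlowOf

set_option autoImplicit false

open Set Filter Topology MeasureTheory
open scoped ContDiff

namespace Pool.Agent.H73.SG

open Pool.Agent.H16 Pool.Agent.H87.NS

theorem Far_coord (k : Fin 3) : ContDiff ℝ ∞ (fun y : E3 => y k) := LevX_coord_cd k

theorem Far_pd_coord (i k : Fin 3) (x : E3) : pd i (fun y : E3 => y k) x = e i k := by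
  unfold pd
  have h : HasFDerivAt (fun y : E3 => y k) (EuclideanSpace.proj k : E3 →L[ℝ] ℝ) x := (EuclideanSpace.proj k : E3 →L[ℝ] ℝ).hasFDerivAt
  rw [h.fderiv]
  rfl

/-- `r² ∂_z (v_θ/r) = x₀ ∂_z v₁ - x₁ ∂_z v₀`. -/
theorem Far_pd {v : E3 → E3} (hv : AxF v) (x : E3) :
    rsq x * pd 2 (sV v) x = circ (fun y => fderiv ℝ v y (e 2)) x := by
  have hV : ContDiff ℝ ∞ (sV v) := avk_smooth (VRep_coord (curl_smooth hv.smooth) 2) 1
  have hr : ContDiff ℝ ∞ rsq := by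
    unfold rsq
    exact ((Far_coord 0).pow 2).add ((Far_coord 1).pow 2)
  have e20 : (e 2 : E3) 0 = 0 := by simp [e]
  have e21 : (e 2 : E3) 1 = 0 := by simp [e]
  have h1 : pd 2 (circ v) x = pd 2 (fun y => rsq y * sV v y) x := by
    have : circ v = fun y => rsq y * sV v y := funext fun y => circ_eq hv y
    rw [this]
  have h2 : pd 2 (fun y => rsq y * sV v y) x = rsq x * pd 2 (sV v) x := by
    rw [EVe_pd_mul hr hV, EVe_pd_rsq, e20, e21]
    ring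
  have h3 : pd 2 (circ v) x = circ (fun y => fderiv ℝ v y (e 2)) x := by
    have hv0 : ContDiff ℝ ∞ (fun y => v y 0) := VRep_coord hv.smooth 0
    have hv1 : ContDiff ℝ ∞ (fun y => v y 1) := VRep_coord hv.smooth 1
    have e1 : circ v = fun y => y 0 * v y 1 - y 1 * v y 0 := rfl
    have e2 : pd 2 (fun y => y 0 * v y 1 - y 1 * v y 0) x =
        pd 2 (fun y => y 0 * v y 1) x - pd 2 (fun y => y 1 * v y 0) x := by
      have d1 : DifferentiableAt ℝ (fun y : E3 => y 0 * v y 1) x :=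
        (((Far_coord 0).mul hv1).differentiable (by simp)) x
      have d2 : DifferentiableAt ℝ (fun y : E3 => y 1 * v y 0) x :=
        (((Far_coord 1).mul hv0).differentiable (by simp)) x
      unfold pd
      rw [fderiv_fun_sub d1 d2]
      rfl
    rw [e1, e2, EVe_pd_mul (Far_coord 0) hv1, EVe_pd_mul (Far_coord 1) hv0, Far_pd_coord, Far_pd_coord, e20, e21,
      pd_comp hv.smooth, pd_comp hv.smooth]
    unfold circ
    ring
  rw [← h2, ← h1, h3]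

theorem Far_pd_le {v : E3 → E3} (hv : AxF v) {x : E3} (hx : 0 < rad x) :
    rad x * |pd 2 (sV v) x| ≤ ‖fderiv ℝ v x (e 2)‖ := by
  have h1 := circ_le (fun y => fderiv ℝ v y (e 2)) x
  rw [← Far_pd hv x, abs_mul, abs_of_pos (rsq_pos hx), ← rad_sq', pow_two, mul_assoc] at h1
  exact le_of_mul_le_mul_left h1 hx

theorem Far_V {v : E3 → E3} (hv : AxF v) {x : E3} (hx : 0 < rad x) :
    sV v x ^ 2 ≤ ‖fderiv ℝ v x (e 0)‖ ^ 2 + ‖fderiv ℝ v x (e 1)‖ ^ 2 := by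
  have hr := rsq_pos hx
  have h1 := fderiv_rotGen (hv.smooth.differentiable (by simp)) hv.ax x
  have h2 : rotGen x = (- x 1) • e 0 + x 0 • e 1 := by
    ext i
    fin_cases i <;> simp [e, rotGen]
  rw [h2, map_add, map_smul, map_smul] at h1
  have h3 : ‖rotGen (v x)‖ ≤ |x 1| * ‖fderiv ℝ v x (e 0)‖ + |x 0| * ‖fderiv ℝ v x (e 1)‖ := by
    rw [← h1]
    refine (norm_add_le _ _).trans (le_of_eq ?_)
    rw [norm_smul, norm_smul, Real.norm_eq_abs, Real.norm_eq_abs, abs_neg]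
  have h4 : ‖rotGen (v x)‖ ^ 2 = v x 0 ^ 2 + v x 1 ^ 2 := by
    rw [EuclideanSpace.real_norm_sq_eq, Fin.sum_univ_three]
    simp [rotGen]
    ring
  obtain ⟨A, hA⟩ : ∃ A : ℝ, A = ‖fderiv ℝ v x (e 0)‖ := ⟨_, rfl⟩
  obtain ⟨B, hB⟩ : ∃ B : ℝ, B = ‖fderiv ℝ v x (e 1)‖ := ⟨_, rfl⟩
  rw [← hA, ← hB] at h3 ⊢
  have h5 : v x 0 ^ 2 + v x 1 ^ 2 ≤ rsq x * (A ^ 2 + B ^ 2) := by
    rw [← h4]
    have h6 := pow_le_pow_left₀ (norm_nonneg _) h3 2
    refine h6.trans ?_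
    unfold rsq
    have e0 := sq_abs (x 0)
    have e1 := sq_abs (x 1)
    nlinarith [sq_nonneg (|x 0| * A - |x 1| * B)]
  have h6 : circ v x ^ 2 ≤ rsq x * (v x 0 ^ 2 + v x 1 ^ 2) := by
    unfold circ rsq
    nlinarith [sq_nonneg (x 0 * v x 0 + x 1 * v x 1)]
  rw [circ_eq hv] at h6
  have h7 : (rsq x * rsq x) * sV v x ^ 2 ≤ (rsq x * rsq x) * (A ^ 2 + B ^ 2) := by
    calc (rsq x * rsq x) * sV v x ^ 2 = (rsq x * sV v x) ^ 2 := by ring
      _ ≤ rsq x * (v x 0 ^ 2 + v x 1 ^ 2) := h6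
      _ ≤ rsq x * (rsq x * (A ^ 2 + B ^ 2)) := mul_le_mul_of_nonneg_left h5 hr.le
      _ = _ := by ring
  exact le_of_mul_le_mul_left h7 (mul_pos hr hr)

theorem Far_pt {v : E3 → E3} (hv : AxF v) {ρ : ℝ} (h0 : 0 < ρ) {x : E3} (hx : ρ ≤ rad x) :
    |src (sV v) x| ≤ dsq v x / ρ := by
  have hr : 0 < rad x := h0.trans_le hx
  have h1 := Far_V hv hr
  have h2 := Far_pd_le hv hr
  have h3 : dsq v x = ‖fderiv ℝ v x (e 0)‖ ^ 2 + ‖fderiv ℝ v x (e 1)‖ ^ 2 + ‖fderiv ℝ v x (e 2)‖ ^ 2 := by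
    unfold dsq
    rw [Fin.sum_univ_three]
  rw [le_div_iff₀ h0, h3]
  unfold src
  rw [abs_mul, abs_mul, abs_two]
  have h5 : ρ * |pd 2 (sV v) x| ≤ ‖fderiv ℝ v x (e 2)‖ := (mul_le_mul_of_nonneg_right hx (abs_nonneg _)).trans h2
  have h6 : |sV v x| * (ρ * |pd 2 (sV v) x|) ≤ |sV v x| * ‖fderiv ℝ v x (e 2)‖ := mul_le_mul_of_nonneg_left h5 (abs_nonneg _)
  have h7 := sq_abs (sV v x)
  nlinarith [sq_nonneg (|sV v x| - ‖fderiv ℝ v x (e 2)‖)]

variable {T : ℝ} {u : ℝ → E3 → E3} {p : ℝ → E3 → ℝ}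

/-- The region near the axis. -/
def cylr (r₀ : ℝ) : Set E3 := {x | rad x < r₀}

theorem cylr_meas (r₀ : ℝ) : MeasurableSet (cylr r₀) := measurableSet_lt Init_rad_cont.measurable measurable_const

theorem cylr_MF {ρ : ℝ → ℝ} (hρ : Continuous ρ) : MF (fun t => cylr (ρ t)) :=
  measurableSet_lt (Init_rad_cont.comp continuous_snd).measurable (hρ.comp continuous_fst).measurable

theorem dsq_nn (v : E3 → E3) (x : E3) : 0 ≤ dsq v x := Finset.sum_nonneg fun _ _ => sq_nonneg _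

theorem Far_t (h : IsHInfAxisymNS T u p) {ρ : ℝ} (h0 : 0 < ρ) {t : ℝ} (ht : t ∈ Ico 0 T) {g : E3 → ℝ} (hi : Integrable g)
    (hg : ∀ x, |g x| ≤ |src (sV (u t)) x|) : ∫ x in (cylr ρ)ᶜ, g x ≤ (∫ x, dsq (u t) x) / ρ := by
  obtain ⟨hd, hn⟩ := dsq_int h ht
  have hv := axF_of h.ns ht
  have h1 : ∫ x in (cylr ρ)ᶜ, g x ≤ ∫ x in (cylr ρ)ᶜ, dsq (u t) x / ρ := by
    refine setIntegral_mono_on hi.integrableOn (hd.div_const _).integrableOn (cylr_meas ρ).compl fun x hx => ?_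
    have hx' : ρ ≤ rad x := not_lt.1 hx
    exact (le_abs_self _).trans ((hg x).trans (Far_pt hv h0 hx'))
  refine h1.trans ?_
  refine (setIntegral_le_integral (hd.div_const _) (Eventually.of_forall fun x => ?_)).trans ?_
  · show 0 ≤ dsq (u t) x / ρ
    exact div_nonneg (dsq_nn _ _) h0.le
  · rw [integral_div]

/-- The dissipation over the radius. -/
theorem dr_ii (h : IsHInfAxisymNS T u p) {ρ : ℝ → ℝ} (hρ : Continuous ρ) {a b : ℝ} (hρ0 : ∀ t ∈ Icc a b, 0 < ρ t)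
    (ha : 0 ≤ a) (hab : a ≤ b) (hb : b < T) : IntervalIntegrable (fun t => (∫ x, dsq (u t) x) / ρ t) volume a b := by
  have h1 : ContinuousOn (fun t => (ρ t)⁻¹) (uIcc a b) := by
    rw [uIcc_of_le hab]
    exact hρ.continuousOn.inv₀ fun t ht => (hρ0 t ht).ne'
  exact (dsq_ii h ha hab hb).mul_continuousOn h1

/-- The production away from the axis. -/
theorem far_le (h : IsHInfAxisymNS T u p) {ρ : ℝ → ℝ} (hρ : Continuous ρ) {a b : ℝ} (hρ0 : ∀ t ∈ Icc a b, 0 < ρ t)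
    (ha : 0 ≤ a) (hab : a ≤ b) (hb : b < T)
    {g : ℝ → E3 → ℝ} (hi : ∀ t ∈ Icc a b, Integrable (g t)) (hg : ∀ t ∈ Icc a b, ∀ x, |g t x| ≤ |src (sV (u t)) x|)
    (i2 : IntervalIntegrable (fun t => ∫ x in (cylr (ρ t))ᶜ, g t x) volume a b) :
    ∫ t in a..b, ∫ x in (cylr (ρ t))ᶜ, g t x ≤ ∫ t in a..b, (∫ x, dsq (u t) x) / ρ t := by
  have hT : ∀ t ∈ Icc a b, t ∈ Ico 0 T := fun t ht => ⟨ha.trans ht.1, ht.2.trans_lt hb⟩
  exact intervalIntegral.integral_mono_on hab i2 (dr_ii h hρ hρ0 ha hab hb) fun t ht =>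
    Far_t h (hρ0 t ht) (hT t ht) (hi t ht) (hg t ht)

end Pool.Agent.H73.SG
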