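/-
Integration along vertical lines.
-/
import Pool.Agent.H73.SG.Cyl3
import Pool.Agent.H73.SG.Far

set_option autoImplicit false

open Set Filter Topology MeasureTheory
open scoped ContDiff

namespace Pool.Agent.H73.SG

open Pool.Agent.H16 Pool.Agent.H87.NS Pool.Agent.H72.CC

/-- Cartesian coordinates, the vertical one last. -/
noncomputable def cte : ((ℝ × ℝ) × ℝ) ≃ᵐ E3 where
  toFun q := ct (q.2, q.1)
  invFun x := ((x 0, x 1), x 2)
  left_inv q := rfl
  right_inv x := ct_x x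
  measurable_toFun := by
    refine Continuous.measurable ?_
    exact ct_cont.comp (continuous_snd.prodMk continuous_fst)
  measurable_invFun := by
    have h : Continuous (fun x : E3 => (((x 0, x 1), x 2) : (ℝ × ℝ) × ℝ)) := by fun_prop
    exact h.measurable

theorem cte_apply (q : (ℝ × ℝ) × ℝ) : cte q = ct (q.2, q.1) := rfl

theorem cte_mp : MeasurePreserving cte := by
  have h1 : MeasurePreserving (Prod.swap : ℝ × (ℝ × ℝ) → (ℝ × ℝ) × ℝ) := Measure.measurePreserving_swap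
  have h2 : MeasurePreserving (Prod.swap ∘ fun x : E3 => (x 2, ((x 0, x 1) : ℝ × ℝ))) := h1.comp Cyl_mp
  have h3 : MeasurePreserving cte.symm := h2
  exact h3.symm

theorem rad_ct (w : ℝ × ℝ) (z : ℝ) : rad (ct (z, w)) = √(w.1 ^ 2 + w.2 ^ 2) := rfl

theorem fub_int {g : E3 → ℝ} (hg : Integrable g) : Integrable (fun q : (ℝ × ℝ) × ℝ => g (ct (q.2, q.1))) :=
  (cte_mp.integrable_comp_emb cte.measurableEmbedding).2 hg

theorem fub {g : E3 → ℝ} (hg : Integrable g) : ∫ x, g x = ∫ w : ℝ × ℝ, ∫ z : ℝ, g (ct (z, w)) := by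
  have h1 := (cte_mp.integral_comp cte.measurableEmbedding g).symm
  rw [h1]
  have h2 := integral_prod (fun q : (ℝ × ℝ) × ℝ => g (cte q)) (by rw [← Measure.volume_eq_prod]; exact fub_int hg)
  exact h2

theorem fub_ae {P : E3 → Prop} (h : ∀ᵐ x, P x) : ∀ᵐ w : ℝ × ℝ, ∀ᵐ z : ℝ, P (ct (z, w)) := by
  have h1 : ∀ᵐ q : (ℝ × ℝ) × ℝ, P (cte q) := cte_mp.quasiMeasurePreserving.ae h
  rw [Measure.volume_eq_prod] at h1
  exact Measure.ae_ae_of_ae_prod h1

theorem fub_sl {g : E3 → ℝ} (hg : Integrable g) : ∀ᵐ w : ℝ × ℝ, Integrable (fun z : ℝ => g (ct (z, w))) := by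
  have h1 := fub_int hg
  rw [Measure.volume_eq_prod] at h1
  exact h1.prod_right_ae

/-- Inequalities between integrals over vertical lines. -/
theorem fub_le {g : E3 → ℝ} (hg : Integrable g) {r₀ : ℝ}
    (h : ∀ᵐ w : ℝ × ℝ, √(w.1 ^ 2 + w.2 ^ 2) < r₀ → Integrable (fun z : ℝ => g (ct (z, w))) → ∫ z : ℝ, g (ct (z, w)) ≤ 0) :
    ∫ x in cylr r₀, g x ≤ 0 := by
  rw [← integral_indicator (cylr_meas r₀)]
  rw [fub (hg.indicator (cylr_meas r₀))]
  refine integral_nonpos_of_ae ?_
  filter_upwards [h, fub_sl hg] with w hw hi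
  by_cases hr : √(w.1 ^ 2 + w.2 ^ 2) < r₀
  · have e1 : (fun z : ℝ => (cylr r₀).indicator g (ct (z, w))) = fun z => g (ct (z, w)) := by
      funext z
      exact indicator_of_mem (show ct (z, w) ∈ cylr r₀ from hr) g
    show ∫ z : ℝ, (cylr r₀).indicator g (ct (z, w)) ≤ 0
    rw [e1]
    exact hw hr hi
  · have e1 : (fun z : ℝ => (cylr r₀).indicator g (ct (z, w))) = fun _ => 0 := by
      funext z
      exact indicator_of_notMem (show ct (z, w) ∉ cylr r₀ from hr) g
    show ∫ z : ℝ, (cylr r₀).indicator g (ct (z, w)) ≤ 0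
    rw [e1, integral_zero]

theorem ct_line (w : ℝ × ℝ) (z : ℝ) : HasDerivAt (fun z : ℝ => ct (z, w)) (e 2) z := by
  have h1 : (fun z : ℝ => ct (z, w)) = fun z : ℝ => ct (0, w) + z • e 2 := by
    funext z
    ext i
    fin_cases i <;> simp [ct, e]
  rw [h1]
  have h2 := ((hasDerivAt_id z).smul_const (e 2)).const_add (ct (0, w))
  simpa using h2

theorem ct_der {g : E3 → ℝ} (hg : Differentiable ℝ g) (w : ℝ × ℝ) (z : ℝ) :
    HasDerivAt (fun z : ℝ => g (ct (z, w))) (pd 2 g (ct (z, w))) z :=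
  (hg (ct (z, w))).hasFDerivAt.comp_hasDerivAt z (ct_line w z)

/-- A vertical derivative has integral zero. -/
theorem zint {g : E3 → ℝ} (hd : Differentiable ℝ g) (hg : Integrable g) (hg' : Integrable (pd 2 g)) (r₀ : ℝ) :
    ∫ x in cylr r₀, pd 2 g x = 0 := by
  have key : ∀ g : E3 → ℝ, Differentiable ℝ g → Integrable g → Integrable (pd 2 g) → ∫ x in cylr r₀, pd 2 g x ≤ 0 := by
    intro g hd hg hg'
    refine fub_le hg' ?_
    filter_upwards [fub_sl hg] with w hw hr hi
    exact (integral_eq_zero_of_hasDerivAt_of_integrable (fun z => ct_der hd w z) hi hw).le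
  refine le_antisymm (key g hd hg hg') ?_
  have e1 : pd 2 (fun x => - g x) = fun x => - pd 2 g x := by
    funext x
    unfold pd
    rw [fderiv_fun_neg]
    rfl
  have h2 := key (fun x => - g x) hd.neg hg.neg (by rw [e1]; exact hg'.neg)
  rw [e1, integral_neg] at h2
  linarith

end Pool.Agent.H73.SG
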