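/-
The net production of |ω_θ/r| at the zeros of ω_θ.
-/
import Pool.Agent.H73.SG.Fub

set_option autoImplicit false

open Set Filter Topology MeasureTheory
open scoped ContDiff

namespace Pool.Agent.H73.SG

open Pool.Agent.H16 Pool.Agent.H87.NS

variable {T : ℝ} {u : ℝ → E3 → E3} {V W Om : ℝ → E3 → ℝ}

theorem ja2 {κ : ℝ} (hκ : 0 < κ) (s : ℝ) : deriv (deriv (ja κ)) s = κ ^ 2 / √(s ^ 2 + κ ^ 2) ^ 3 := by
  have hP := JQ_pos hκ s
  have h0 : 0 < √(s ^ 2 + κ ^ 2) := Real.sqrt_pos.2 hP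
  have e : deriv (ja κ) = fun s => s / √(s ^ 2 + κ ^ 2) := funext fun s => (JQ_ja hκ s).deriv
  have h1 : HasDerivAt (fun s : ℝ => √(s ^ 2 + κ ^ 2)) (s / √(s ^ 2 + κ ^ 2)) s := by
    have := (JQ_ja hκ s).add_const κ
    have e2 : (fun x => ja κ x + κ) = fun s : ℝ => √(s ^ 2 + κ ^ 2) := by
      funext x; unfold ja; ring
    rwa [e2] at this
  have h2 := (hasDerivAt_id s).div h1 h0.ne'
  have h3 : deriv (fun s : ℝ => s / √(s ^ 2 + κ ^ 2)) s =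
      (1 * √(s ^ 2 + κ ^ 2) - s * (s / √(s ^ 2 + κ ^ 2))) / √(s ^ 2 + κ ^ 2) ^ 2 := h2.deriv
  rw [e, h3]
  have h4 : √(s ^ 2 + κ ^ 2) ^ 2 = s ^ 2 + κ ^ 2 := Real.sq_sqrt hP.le
  have h5 : 1 * √(s ^ 2 + κ ^ 2) - s * (s / √(s ^ 2 + κ ^ 2)) = κ ^ 2 / √(s ^ 2 + κ ^ 2) := by
    rw [eq_div_iff h0.ne']
    have : (1 * √(s ^ 2 + κ ^ 2) - s * (s / √(s ^ 2 + κ ^ 2))) * √(s ^ 2 + κ ^ 2) = √(s ^ 2 + κ ^ 2) ^ 2 - s ^ 2 := by
      field_simp
    rw [this, h4]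
    ring
  rw [h5, div_div, ← pow_succ']

/-- The mollified net production of `|Om|` near the zeros of `Om`, near the axis. -/
noncomputable def nk (r₀ κ : ℝ) (V Om : E3 → ℝ) : ℝ :=
  ∫ x in cylr r₀, κ ^ 2 / √(Om x ^ 2 + κ ^ 2) ^ 3 * (-(V x ^ 2 * pd 2 Om x) - gsq Om x)

theorem Nd_ker {κ : ℝ} (hκ : 0 < κ) (s : ℝ) : 0 ≤ κ ^ 2 / √(s ^ 2 + κ ^ 2) ^ 3 ∧ κ ^ 2 / √(s ^ 2 + κ ^ 2) ^ 3 ≤ 1 / κ := by
  have hP := JQ_pos hκ s
  have h0 : 0 < √(s ^ 2 + κ ^ 2) := Real.sqrt_pos.2 hP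
  have h1 : κ ≤ √(s ^ 2 + κ ^ 2) := Real.le_sqrt_of_sq_le (by nlinarith [sq_nonneg s])
  refine ⟨by positivity, ?_⟩
  rw [div_le_div_iff₀ (by positivity) hκ, one_mul]
  have h2 := pow_le_pow_left₀ hκ.le h1 3
  calc κ ^ 2 * κ = κ ^ 3 := by ring
    _ ≤ _ := h2

theorem Nd_ker2 {κ δ : ℝ} (hκ : 0 < κ) (hδ : 0 < δ) {s : ℝ} (hs : δ ≤ |s|) : κ ^ 2 / √(s ^ 2 + κ ^ 2) ^ 3 ≤ κ ^ 2 / δ ^ 3 := by
  have h1 : δ ≤ √(s ^ 2 + κ ^ 2) := hs.trans (JQ_le_sqrt κ s)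
  exact div_le_div_of_nonneg_left (by positivity) (by positivity) (pow_le_pow_left₀ hδ.le h1 3)

/-- `V²` is integrable and bounded; `∂_z Om` is bounded. -/
theorem Nd_bd (F : Flow T u V W Om) {t : ℝ} (ht : t ∈ Ico 0 T) :
    ∃ K : ℝ, 0 ≤ K ∧ (∀ x, |pd 2 (Om t) x| ≤ K) ∧ Integrable (fun x => V t x ^ 2) := by
  obtain ⟨K, hK⟩ := F.evO.bd t ht.2
  obtain ⟨K', hK'⟩ := F.evV.bd t ht.2
  have h1 := DB_BL (DB_pd (hK t ⟨ht.1, le_rfl⟩).1 2)
  exact ⟨K, BL_nonneg h1, h1.1, (DB_BL (hK' t ⟨ht.1, le_rfl⟩).1).2.1⟩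

theorem Nd_sm (F : Flow T u V W Om) {t : ℝ} (ht : t ∈ Ico 0 T) : ContDiff ℝ ∞ (V t) ∧ ContDiff ℝ ∞ (Om t) :=
  ⟨F.evV.smooth t ht, F.evO.smooth t ht⟩

theorem Nd_V2 (F : Flow T u V W Om) {t : ℝ} (ht : t ∈ Ico 0 T) {κ : ℝ} (hκ : 0 < κ) :
    Integrable (fun x => κ ^ 2 / √(Om t x ^ 2 + κ ^ 2) ^ 3 * (V t x ^ 2 * pd 2 (Om t) x)) := by
  obtain ⟨hV, hO⟩ := Nd_sm F ht
  obtain ⟨K, hK0, hK, hV2⟩ := Nd_bd F ht
  have hc : Continuous (fun x => κ ^ 2 / √(Om t x ^ 2 + κ ^ 2) ^ 3 * (V t x ^ 2 * pd 2 (Om t) x)) := by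
    have h1 : Continuous (fun x => √(Om t x ^ 2 + κ ^ 2) ^ 3) := (((hO.continuous.pow 2).add continuous_const).sqrt).pow 3
    refine (continuous_const.div h1 fun x => ?_).mul ((hV.continuous.pow 2).mul (pd_smooth hO 2).continuous)
    exact (pow_pos (Real.sqrt_pos.2 (JQ_pos hκ _)) 3).ne'
  refine (hV2.const_mul (K / κ)).mono' hc.aestronglyMeasurable (Eventually.of_forall fun x => ?_)
  obtain ⟨h1, h2⟩ := Nd_ker hκ (Om t x)
  rw [Real.norm_eq_abs, abs_mul, abs_mul, abs_of_nonneg h1, abs_of_nonneg (sq_nonneg (V t x))]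
  have h3 := hK x
  have h4 : V t x ^ 2 * |pd 2 (Om t) x| ≤ V t x ^ 2 * K := mul_le_mul_of_nonneg_left h3 (sq_nonneg _)
  calc κ ^ 2 / √(Om t x ^ 2 + κ ^ 2) ^ 3 * (V t x ^ 2 * |pd 2 (Om t) x|) ≤ 1 / κ * (V t x ^ 2 * K) :=
        mul_le_mul h2 h4 (by positivity) (by positivity)
    _ = K / κ * V t x ^ 2 := by ring

/-- The production in the divergence form. -/
theorem nk_eq (F : Flow T u V W Om) {t : ℝ} (ht : t ∈ Ico 0 T) {κ : ℝ} (hκ : 0 < κ) (r₀ : ℝ) :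
    (∫ x in cylr r₀, deriv (ja κ) (Om t x) * src (V t) x) - ∫ x in cylr r₀, deriv (deriv (ja κ)) (Om t x) * gsq (Om t) x =
      nk r₀ κ (V t) (Om t) := by
  obtain ⟨hV, hO⟩ := Nd_sm F ht
  obtain ⟨K, hK0, hK, hV2⟩ := Nd_bd F ht
  have hj := ja_jfun hκ
  have hint := evo_int F.evO hj ht
  have i1 : Integrable (fun x => deriv (ja κ) (Om t x) * src (V t) x) := hint.2.2
  have i2 : Integrable (fun x => deriv (deriv (ja κ)) (Om t x) * gsq (Om t) x) := hint.2.1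
  have i3 := Nd_V2 F ht hκ
  have hj1 : ContDiff ℝ ∞ (deriv (ja κ)) := JF_smooth1 hj
  have hd1 : ContDiff ℝ ∞ (fun x => deriv (ja κ) (Om t x)) := hj1.comp hO
  have hd : ContDiff ℝ ∞ (fun x => deriv (ja κ) (Om t x) * V t x ^ 2) := hd1.mul (hV.pow 2)
  have e1 : pd 2 (fun x => deriv (ja κ) (Om t x) * V t x ^ 2) = fun x =>
      deriv (ja κ) (Om t x) * src (V t) x + κ ^ 2 / √(Om t x ^ 2 + κ ^ 2) ^ 3 * (V t x ^ 2 * pd 2 (Om t) x) := by
    funext x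
    rw [EVe_pd_mul hd1 (hV.pow 2)]
    have h1 : pd 2 (fun x => deriv (ja κ) (Om t x)) x = deriv (deriv (ja κ)) (Om t x) * pd 2 (Om t) x :=
      comp_pd (hO.of_le (by exact_mod_cast le_top)) (hj1.of_le (by exact_mod_cast le_top)) 2 x
    have h2 : pd 2 (fun x => V t x ^ 2) x = src (V t) x := by
      have : (fun x => V t x ^ 2) = fun x => V t x * V t x := by
        funext x
        ring
      rw [this, EVe_pd_mul hV hV]
      unfold src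
      ring
    rw [h1, h2, ja2 hκ]
    ring
  have i4 : Integrable (fun x => deriv (ja κ) (Om t x) * V t x ^ 2) := by
    refine hV2.mono' hd.continuous.aestronglyMeasurable (Eventually.of_forall fun x => ?_)
    rw [Real.norm_eq_abs, abs_mul, abs_of_nonneg (sq_nonneg (V t x))]
    exact mul_le_of_le_one_left (sq_nonneg _) (ja_deriv hκ _)
  have h0 := zint (hd.differentiable (by simp)) i4 (by rw [e1]; exact i1.add i3) r₀
  rw [e1, integral_add i1.integrableOn i3.integrableOn] at h0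
  have e2 : nk r₀ κ (V t) (Om t) = -(∫ x in cylr r₀, κ ^ 2 / √(Om t x ^ 2 + κ ^ 2) ^ 3 * (V t x ^ 2 * pd 2 (Om t) x)) -
      ∫ x in cylr r₀, deriv (deriv (ja κ)) (Om t x) * gsq (Om t) x := by
    have i5 : Integrable (fun x => -(κ ^ 2 / √(Om t x ^ 2 + κ ^ 2) ^ 3 * (V t x ^ 2 * pd 2 (Om t) x))) := i3.neg
    rw [← integral_neg, ← integral_sub i5.integrableOn i2.integrableOn]
    unfold nk
    refine integral_congr_ae (Eventually.of_forall fun x => ?_)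
    show κ ^ 2 / √(Om t x ^ 2 + κ ^ 2) ^ 3 * (-(V t x ^ 2 * pd 2 (Om t) x) - gsq (Om t) x) =
      -(κ ^ 2 / √(Om t x ^ 2 + κ ^ 2) ^ 3 * (V t x ^ 2 * pd 2 (Om t) x)) - deriv (deriv (ja κ)) (Om t x) * gsq (Om t) x
    rw [ja2 hκ]
    ring
  rw [e2]
  linarith

/-- The net production is at most the integral of `sgn(Om) ∂_z V²`, in the limit. -/
theorem nk_lim (F : Flow T u V W Om) {t : ℝ} (ht : t ∈ Ico 0 T) (r₀ : ℝ) {ε : ℝ} (hε : 0 < ε) :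
    ∀ᶠ κ in 𝓝[>] (0:ℝ), nk r₀ κ (V t) (Om t) ≤ (∫ x in cylr r₀, fi V Om t x) + ε := by
  obtain ⟨K, _, hK⟩ := src_bd F ht.2
  have hs : ∀ s : ℝ, Tendsto (fun κ : ℝ => deriv (ja κ) s) (𝓝[>] 0) (𝓝 (Real.sign s)) := by
    intro s
    have e1 : (fun κ : ℝ => s / √(s ^ 2 + κ ^ 2)) =ᶠ[𝓝[>] 0] fun κ : ℝ => deriv (ja κ) s := by
      filter_upwards [self_mem_nhdsWithin] with κ hκ
      exact ((JQ_ja hκ s).deriv).symm
    refine Tendsto.congr' e1 ?_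
    rcases eq_or_ne s 0 with h0 | h0
    · subst h0
      simp
    · have h2 : Tendsto (fun κ : ℝ => √(s ^ 2 + κ ^ 2)) (𝓝[>] 0) (𝓝 |s|) := by
        have h3 : Continuous (fun κ : ℝ => √(s ^ 2 + κ ^ 2)) := by fun_prop
        have h4 := (h3.tendsto 0).mono_left (nhdsWithin_le_nhds (s := Ioi (0:ℝ)))
        have e2 : √(s ^ 2 + 0 ^ 2) = |s| := by
          rw [zero_pow two_ne_zero, add_zero, Real.sqrt_sq_eq_abs]
        rwa [e2] at h4
      have h3 := (tendsto_const_nhds (x := s)).div h2 (abs_ne_zero.2 h0)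
      have e2 : s / |s| = Real.sign s := by
        rcases lt_or_gt_of_ne h0 with h | h
        · rw [abs_of_neg h, Real.sign_of_neg h, div_neg, div_self h0]
        · rw [abs_of_pos h, Real.sign_of_pos h, div_self h0]
      rwa [e2] at h3
  have h1 : Tendsto (fun κ => ∫ x in cylr r₀, deriv (ja κ) (Om t x) * src (V t) x) (𝓝[>] 0)
      (𝓝 (∫ x in cylr r₀, fi V Om t x)) := by
    refine tendsto_integral_filter_of_dominated_convergence (fun x => |src (V t) x|) ?_ ?_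
      (hK t ⟨ht.1, le_rfl⟩).1.abs.integrableOn ?_
    · filter_upwards [self_mem_nhdsWithin] with κ hκ
      have h2 : Continuous (deriv (ja κ)) := (JF_smooth1 (ja_jfun hκ)).continuous
      exact ((h2.comp (Nd_sm F ht).2.continuous).mul (src_cont F ht)).aestronglyMeasurable
    · filter_upwards [self_mem_nhdsWithin] with κ hκ
      refine Eventually.of_forall fun x => ?_
      rw [Real.norm_eq_abs, abs_mul]
      exact mul_le_of_le_one_left (abs_nonneg _) (ja_deriv hκ _)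
    · exact Eventually.of_forall fun x => (hs _).mul_const _
  have h2 : ∀ᶠ κ in 𝓝[>] (0:ℝ), (∫ x in cylr r₀, deriv (ja κ) (Om t x) * src (V t) x) < (∫ x in cylr r₀, fi V Om t x) + ε :=
    h1.eventually (gt_mem_nhds (by linarith))
  filter_upwards [h2, self_mem_nhdsWithin] with κ h3 hκ
  rw [← nk_eq F ht hκ r₀]
  have h4 : 0 ≤ ∫ x in cylr r₀, deriv (deriv (ja κ)) (Om t x) * gsq (Om t) x :=
    integral_nonneg fun x => mul_nonneg ((ja_jfun hκ).convex _) (gsq_nonneg _ _)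
  linarith

/-- The pointwise condition near the zeros of `Om`. -/
theorem nk_pt (F : Flow T u V W Om) {t : ℝ} (ht : t ∈ Ico 0 T) {r₀ δ : ℝ} (hδ : 0 < δ)
    (hN : ∀ x, rad x < r₀ → |Om t x| < δ → -(V t x ^ 2 * pd 2 (Om t) x) ≤ gsq (Om t) x) {ε : ℝ} (hε : 0 < ε) :
    ∀ᶠ κ in 𝓝[>] (0:ℝ), nk r₀ κ (V t) (Om t) ≤ ε := by
  obtain ⟨K, hK0, hK, hV2⟩ := Nd_bd F ht
  obtain ⟨I, hI⟩ : ∃ I : ℝ, I = ∫ x in cylr r₀, V t x ^ 2 * K := ⟨_, rfl⟩
  have h1 : Tendsto (fun κ : ℝ => κ ^ 2 / δ ^ 3 * I) (𝓝[>] 0) (𝓝 0) := by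
    have h3 : Continuous (fun κ : ℝ => κ ^ 2 / δ ^ 3 * I) := by fun_prop
    have h4 := (h3.tendsto 0).mono_left (nhdsWithin_le_nhds (s := Ioi (0:ℝ)))
    simpa using h4
  filter_upwards [h1.eventually (gt_mem_nhds hε), self_mem_nhdsWithin] with κ h2 hκ
  refine le_trans ?_ h2.le
  have h5 : nk r₀ κ (V t) (Om t) ≤ ∫ x in cylr r₀, κ ^ 2 / δ ^ 3 * (V t x ^ 2 * K) := by
    unfold nk
    have hint := evo_int F.evO (ja_jfun hκ) ht
    have i2 : Integrable (fun x => deriv (deriv (ja κ)) (Om t x) * gsq (Om t) x) := hint.2.1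
    have i3 := Nd_V2 F ht hκ
    have i4 : Integrable (fun x => κ ^ 2 / √(Om t x ^ 2 + κ ^ 2) ^ 3 * (-(V t x ^ 2 * pd 2 (Om t) x) - gsq (Om t) x)) := by
      refine (i3.neg.sub i2).congr (Eventually.of_forall fun x => ?_)
      show -(κ ^ 2 / √(Om t x ^ 2 + κ ^ 2) ^ 3 * (V t x ^ 2 * pd 2 (Om t) x)) - deriv (deriv (ja κ)) (Om t x) * gsq (Om t) x =
        κ ^ 2 / √(Om t x ^ 2 + κ ^ 2) ^ 3 * (-(V t x ^ 2 * pd 2 (Om t) x) - gsq (Om t) x)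
      rw [ja2 hκ]
      ring
    refine setIntegral_mono_on i4.integrableOn (((hV2.mul_const K).const_mul _).integrableOn) (cylr_meas r₀) fun x hx => ?_
    obtain ⟨k0, _⟩ := Nd_ker hκ (Om t x)
    rcases lt_or_ge |Om t x| δ with h | h
    · have h6 := hN x hx h
      have h7 : κ ^ 2 / √(Om t x ^ 2 + κ ^ 2) ^ 3 * (-(V t x ^ 2 * pd 2 (Om t) x) - gsq (Om t) x) ≤ 0 :=
        mul_nonpos_of_nonneg_of_nonpos k0 (by linarith)
      exact h7.trans (by positivity)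
    · have h6 := Nd_ker2 hκ hδ h
      have h7 : -(V t x ^ 2 * pd 2 (Om t) x) - gsq (Om t) x ≤ V t x ^ 2 * K := by
        have h8 := gsq_nonneg (Om t) x
        have h9 : V t x ^ 2 * |pd 2 (Om t) x| ≤ V t x ^ 2 * K := mul_le_mul_of_nonneg_left (hK x) (sq_nonneg _)
        have h10 : -(V t x ^ 2 * pd 2 (Om t) x) ≤ V t x ^ 2 * |pd 2 (Om t) x| := by
          have := mul_le_mul_of_nonneg_left (neg_abs_le (pd 2 (Om t) x)) (sq_nonneg (V t x))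
          linarith
        linarith
      exact (mul_le_mul_of_nonneg_left h7 k0).trans (mul_le_mul_of_nonneg_right h6 (by positivity))
  rw [integral_const_mul, ← hI] at h5
  exact h5

end Pool.Agent.H73.SG
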