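/-
The evolution of the integral of |ω_θ/r| with the net production at the zeros of ω_θ.
-/
import Pool.Agent.H73.SG.Nd

set_option autoImplicit false

open Set Filter Topology MeasureTheory
open scoped ContDiff

namespace Pool.Agent.H73.SG

open Pool.Agent.H16 Pool.Agent.H87.NS

variable {T : ℝ} {u : ℝ → E3 → E3} {V W Om : ℝ → E3 → ℝ}

theorem kn_lim' : Tendsto kn atTop (𝓝[>] (0:ℝ)) :=
  tendsto_nhdsWithin_iff.2 ⟨kn_lim, Eventually.of_forall fun n => kn_pos n⟩

/-- The dissipation. -/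
noncomputable def ds (Om : ℝ → E3 → ℝ) (κ : ℝ) (t : ℝ) (x : E3) : ℝ := deriv (deriv (ja κ)) (Om t x) * gsq (Om t) x

theorem ds_jc (F : Flow T u V W Om) {κ : ℝ} (hκ : 0 < κ) : JC T (ds Om κ) := (evo_jc F.evO (ja_jfun hκ)).2.1

theorem ds_nn {κ : ℝ} (hκ : 0 < κ) (t : ℝ) (x : E3) : 0 ≤ ds Om κ t x :=
  mul_nonneg ((ja_jfun hκ).convex _) (gsq_nonneg _ _)

theorem ds_int (F : Flow T u V W Om) {κ : ℝ} (hκ : 0 < κ) {t : ℝ} (ht : t ∈ Ico 0 T) : Integrable (ds Om κ t) :=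
  (evo_int F.evO (ja_jfun hκ) ht).2.1

theorem ds_ii (F : Flow T u V W Om) {κ : ℝ} (hκ : 0 < κ) {E : ℝ → Set E3} (hE : MF E) {a b : ℝ} (ha : 0 ≤ a) (hab : a ≤ b)
    (hb : b < T) : IntervalIntegrable (fun t => ∫ x in E t, ds Om κ t x) volume a b := by
  obtain ⟨K, hK⟩ := evo_bd F.evO (ja_jfun hκ) hb
  rw [intervalIntegrable_iff_integrableOn_Icc_of_le hab]
  refine Integrable.of_bound (sg_meas (ds_jc F hκ) hE ha hb) K ?_
  refine ae_restrict_of_forall_mem measurableSet_Icc fun t ht => ?_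
  have h1 := (hK t ⟨ha.trans ht.1, ht.2⟩).2.1
  have h2 : Integrable (ds Om κ t) := h1.1
  have h3 : ∫ x, |ds Om κ t x| ≤ K := h1.2
  refine (norm_integral_le_integral_norm _).trans ?_
  exact (setIntegral_le_integral h2.norm (Eventually.of_forall fun x => norm_nonneg _)).trans h3

theorem nk_sp (F : Flow T u V W Om) {t : ℝ} (ht : t ∈ Ico 0 T) {κ : ℝ} (hκ : 0 < κ) (r₀ : ℝ) :
    (∫ x in cylr r₀, fk V Om κ t x) - ∫ x in cylr r₀, ds Om κ t x = nk r₀ κ (V t) (Om t) := nk_eq F ht hκ r₀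

theorem nk_ii (F : Flow T u V W Om) {κ : ℝ} (hκ : 0 < κ) {ρ : ℝ → ℝ} (hρ : Continuous ρ) {a b : ℝ} (ha : 0 ≤ a)
    (hab : a ≤ b) (hb : b < T) : IntervalIntegrable (fun t => nk (ρ t) κ (V t) (Om t)) volume a b := by
  refine ((fk_ii F hκ (cylr_MF hρ) ha hab hb).sub (ds_ii F hκ (cylr_MF hρ) ha hab hb)).congr fun t ht => ?_
  rw [uIoc_of_le hab] at ht
  exact nk_sp F ⟨ha.trans ht.1.le, ht.2.trans_lt hb⟩ hκ (ρ t)

/-- The evolution inequality with the parameter `κ`. -/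
theorem ev_k (F : Flow T u V W Om) {a b : ℝ} (ha : 0 ≤ a) (hab : a ≤ b) (hb : b < T) (hi : Integrable (Om a)) {ρ : ℝ → ℝ}
    (hρ : Continuous ρ) {κ : ℝ} (hκ : 0 < κ) :
    ∫ x, ja κ (Om b x) ≤ (∫ x, |Om a x|) + (∫ t in a..b, ∫ x in (cylr (ρ t))ᶜ, fk V Om κ t x) +
      ∫ t in a..b, nk (ρ t) κ (V t) (Om t) := by
  have haT : a ∈ Ico 0 T := ⟨ha, hab.trans_lt hb⟩
  have hT : ∀ t ∈ Icc a b, t ∈ Ico 0 T := fun t ht => ⟨ha.trans ht.1, ht.2.trans_lt hb⟩
  have h4 : (∫ x, ja κ (Om b x)) + ∫ t in a..b, ∫ x, ds Om κ t x ≤ (∫ x, ja κ (Om a x)) + ∫ t in a..b, ∫ x, fk V Om κ t x :=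
    ev1 F.drift F.evO (ja_jfun hκ) ha hab hb
  have h5 : ∫ x, ja κ (Om a x) ≤ ∫ x, |Om a x| :=
    integral_mono (evo_int F.evO (ja_jfun hκ) haT).1 hi.abs fun x => (ja_le hκ _).2.1
  have j1 : IntervalIntegrable (fun t => ∫ x, fk V Om κ t x) volume a b := by
    have := fk_ii F hκ (MF_const MeasurableSet.univ) ha hab hb
    simpa only [setIntegral_univ] using this
  have j2 : IntervalIntegrable (fun t => ∫ x, ds Om κ t x) volume a b := by
    have := ds_ii F hκ (MF_const MeasurableSet.univ) ha hab hb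
    simpa only [setIntegral_univ] using this
  have j3 := fk_ii F hκ (cylr_MF hρ).cpl ha hab hb
  have j4 := nk_ii F hκ hρ ha hab hb
  have h8 : ∫ t in a..b, ((∫ x, fk V Om κ t x) - ∫ x, ds Om κ t x) ≤
      ∫ t in a..b, ((∫ x in (cylr (ρ t))ᶜ, fk V Om κ t x) + nk (ρ t) κ (V t) (Om t)) := by
    refine intervalIntegral.integral_mono_on hab (j1.sub j2) (j3.add j4) fun t ht => ?_
    have k1 := integral_add_compl (cylr_meas (ρ t)) (fk_int F hκ (hT t ht))
    have k2 := integral_add_compl (cylr_meas (ρ t)) (ds_int F hκ (hT t ht))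
    have k3 : 0 ≤ ∫ x in (cylr (ρ t))ᶜ, ds Om κ t x := integral_nonneg fun x => ds_nn hκ t x
    have k4 := nk_sp F (hT t ht) hκ (ρ t)
    rw [← k1, ← k2]
    linarith
  rw [intervalIntegral.integral_sub j1 j2, intervalIntegral.integral_add j3 j4] at h8
  linarith

/-- The limit of the regularised integrals. -/
theorem ja_lim (F : Flow T u V W Om) {b : ℝ} (hb : b ∈ Ico 0 T) (hI : Integrable (Om b)) :
    Tendsto (fun κ => ∫ x, ja κ (Om b x)) (𝓝[>] 0) (𝓝 (∫ x, |Om b x|)) := by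
  refine tendsto_integral_filter_of_dominated_convergence (fun x => |Om b x|) ?_ ?_ hI.abs ?_
  · filter_upwards [self_mem_nhdsWithin] with κ hκ
    exact ((ja_jfun hκ).smooth.continuous.comp (F.evO.smooth b hb).continuous).aestronglyMeasurable
  · filter_upwards [self_mem_nhdsWithin] with κ hκ
    refine Eventually.of_forall fun x => ?_
    rw [Real.norm_of_nonneg (ja_le hκ _).1]
    exact (ja_le hκ _).2.1
  · refine Eventually.of_forall fun x => ?_
    have h3 : Continuous (fun κ : ℝ => ja κ (Om b x)) := by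
      unfold ja
      fun_prop
    have h4 := (h3.tendsto 0).mono_left (nhdsWithin_le_nhds (s := Ioi (0:ℝ)))
    have e2 : ja 0 (Om b x) = |Om b x| := by
      unfold ja
      rw [zero_pow two_ne_zero, add_zero, Real.sqrt_sq_eq_abs, sub_zero]
    rwa [e2] at h4

/-- An upper bound of the net production in the limit. -/
theorem ev_q (F : Flow T u V W Om) {a b : ℝ} (ha : 0 ≤ a) (hab : a ≤ b) (hb : b < T) {ρ : ℝ → ℝ}
    (hρ : Continuous ρ) {q : ℝ → ℝ} (hq : IntervalIntegrable q volume a b)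
    (hN : ∀ s ∈ Ioc a b, ∀ ε > 0, ∀ᶠ κ in 𝓝[>] (0:ℝ), nk (ρ s) κ (V s) (Om s) ≤ q s + ε) {ε : ℝ} (hε : 0 < ε) :
    ∀ᶠ n in atTop, ∫ t in a..b, nk (ρ t) (kn n) (V t) (Om t) ≤ (∫ t in a..b, q t) + ε := by
  have hT : ∀ t ∈ Icc a b, t ∈ Ico 0 T := fun t ht => ⟨ha.trans ht.1, ht.2.trans_lt hb⟩
  have hT0 : ∀ t ∈ Icc a b, t ∈ Icc 0 b := fun t ht => ⟨ha.trans ht.1, ht.2⟩
  obtain ⟨K, hK0, hK⟩ := src_bd F hb
  obtain ⟨Q, hQ⟩ : ∃ Q : ℕ → ℝ → ℝ, Q = fun n t => nk (ρ t) (kn n) (V t) (Om t) := ⟨_, rfl⟩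
  have hQi : ∀ n, IntervalIntegrable (Q n) volume a b := fun n => by
    rw [hQ]
    exact nk_ii F (kn_pos n) hρ ha hab hb
  have hQK : ∀ n, ∀ t ∈ Icc a b, Q n t ≤ K := by
    intro n t ht
    have h3 : ‖∫ x in cylr (ρ t), fk V Om (kn n) t x‖ ≤ K :=
      sg_nrm hK (hT0 t ht) (cylr (ρ t)) (fk_int F (kn_pos n) (hT t ht)) fun x => fk_le (kn_pos n) _ _
    have h4 : 0 ≤ ∫ x in cylr (ρ t), ds Om (kn n) t x := integral_nonneg fun x => ds_nn (kn_pos n) t x
    have h5 := (le_abs_self _).trans h3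
    have h6 := nk_sp F (hT t ht) (kn_pos n) (ρ t)
    rw [hQ]
    show nk (ρ t) (kn n) (V t) (Om t) ≤ K
    linarith
  obtain ⟨R, hR⟩ : ∃ R : ℕ → ℝ → ℝ, R = fun n t => max (Q n t - q t) 0 := ⟨_, rfl⟩
  have hqm : AEStronglyMeasurable q (volume.restrict (Ioc a b)) := hq.1.aestronglyMeasurable
  have hRm : ∀ n, AEStronglyMeasurable (R n) (volume.restrict (Ioc a b)) := by
    intro n
    rw [hR]
    exact (((hQi n).1.aestronglyMeasurable).sub hqm).sup aestronglyMeasurable_const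
  have hRK : ∀ n, ∀ t ∈ Icc a b, ‖R n t‖ ≤ K + |q t| := by
    intro n t ht
    rw [hR]
    show ‖max (Q n t - q t) 0‖ ≤ K + |q t|
    rw [Real.norm_of_nonneg (le_max_right _ _)]
    have h3 := hQK n t ht
    have h4 := neg_abs_le (q t)
    exact max_le (by linarith) (by positivity)
  have hRi : ∀ n, IntervalIntegrable (R n) volume a b := by
    intro n
    rw [intervalIntegrable_iff_integrableOn_Ioc_of_le hab]
    have h3 : IntegrableOn (fun t => K + |q t|) (Ioc a b) := by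
      have h4 : IntegrableOn (fun t => |q t|) (Ioc a b) := hq.1.abs
      exact (integrableOn_const (by simp)).add h4
    refine Integrable.mono' h3 (hRm n) ?_
    exact ae_restrict_of_forall_mem measurableSet_Ioc fun t ht => hRK n t ⟨ht.1.le, ht.2⟩
  have hRl : Tendsto (fun n => ∫ t in a..b, R n t) atTop (𝓝 0) := by
    have h3 : Tendsto (fun n => ∫ t in a..b, R n t) atTop (𝓝 (∫ _ in a..b, (0:ℝ))) := by
      refine intervalIntegral.tendsto_integral_filter_of_dominated_convergence (fun t => K + |q t|) ?_ ?_ ?_ ?_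
      · refine Eventually.of_forall fun n => ?_
        rw [uIoc_of_le hab]
        exact hRm n
      · refine Eventually.of_forall fun n => ae_of_all _ fun t ht => ?_
        rw [uIoc_of_le hab] at ht
        exact hRK n t ⟨ht.1.le, ht.2⟩
      · exact intervalIntegrable_const.add hq.abs
      · refine ae_of_all _ fun t ht => ?_
        rw [uIoc_of_le hab] at ht
        rw [Metric.tendsto_atTop]
        intro ε hε
        have h4 := kn_lim'.eventually (hN t ht (ε / 2) (by positivity))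
        obtain ⟨N, hNn⟩ := eventually_atTop.1 h4
        refine ⟨N, fun n hn => ?_⟩
        have h5 := hNn n hn
        rw [Real.dist_eq, sub_zero, hR, hQ]
        show |max (nk (ρ t) (kn n) (V t) (Om t) - q t) 0| < ε
        rw [abs_of_nonneg (le_max_right _ _)]
        exact max_lt (by linarith) hε
    simpa using h3
  filter_upwards [hRl.eventually (gt_mem_nhds hε)] with n hn
  have h8 : ∫ t in a..b, nk (ρ t) (kn n) (V t) (Om t) ≤ ∫ t in a..b, (q t + R n t) := by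
    refine intervalIntegral.integral_mono_on hab (nk_ii F (kn_pos n) hρ ha hab hb) (hq.add (hRi n)) fun t ht => ?_
    have := le_max_left (Q n t - q t) 0
    rw [hR]
    show nk (ρ t) (kn n) (V t) (Om t) ≤ q t + max (Q n t - q t) 0
    have e1 : Q n t = nk (ρ t) (kn n) (V t) (Om t) := by rw [hQ]
    linarith
  rw [intervalIntegral.integral_add hq (hRi n)] at h8
  linarith

end Pool.Agent.H73.SG
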