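/-
The criterion with the net production of |ω_θ/r| at the zeros of ω_θ.
-/
import Pool.Agent.H72.CC.MainB
import Pool.Agent.H73.SG.Ev

set_option autoImplicit false

open Set Filter Topology MeasureTheory
open scoped ContDiff

namespace Pool.Agent.H73.SG

open Pool.Agent.H16 Pool.Agent.H87.NS Pool.Agent.H72.CC

/-- Continuous extension. -/
theorem cext {ρ : ℝ → ℝ} {a b : ℝ} (hab : a ≤ b) (hρ : ContinuousOn ρ (Icc a b)) :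
    ∃ ρ' : ℝ → ℝ, Continuous ρ' ∧ ∀ s ∈ Icc a b, ρ' s = ρ s :=
  ⟨IccExtend hab ((Icc a b).domRestrict ρ), hρ.domRestrict.Icc_extend', fun _ hs => IccExtend_of_mem hab _ hs⟩

theorem cx_int {ρ ρ' : ℝ → ℝ} {a b : ℝ} (hab : a ≤ b) (h : ∀ s ∈ Icc a b, ρ' s = ρ s) (Φ : ℝ → ℝ → ℝ) :
    ∫ s in a..b, Φ (ρ' s) s = ∫ s in a..b, Φ (ρ s) s := by
  refine intervalIntegral.integral_congr fun s hs => ?_
  rw [uIcc_of_le hab] at hs
  show Φ (ρ' s) s = Φ (ρ s) s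
  rw [h s hs]

/-- Continuous positive radii with a bounded integral of the dissipation over the radius. -/
structure Rad (T t₀ : ℝ) (u : ℝ → E3 → E3) (ρ : ℝ → ℝ) : Prop where
  cont : ContinuousOn ρ (Ico t₀ T)
  pos : ∀ t ∈ Ico t₀ T, 0 < ρ t
  bdd : ∃ K : ℝ, ∀ t ∈ Ioo t₀ T, ∫ s in t₀..t, (∫ x, dsq (u s) x) / ρ s ≤ K

theorem Rad.ext {T t₀ : ℝ} {u : ℝ → E3 → E3} {ρ : ℝ → ℝ} (hR : Rad T t₀ u ρ) {t : ℝ} (ht : t ∈ Ioo t₀ T) :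
    ∃ ρ' : ℝ → ℝ, Continuous ρ' ∧ (∀ s ∈ Icc t₀ t, ρ' s = ρ s) ∧ ∀ s ∈ Icc t₀ t, 0 < ρ' s := by
  have hs : Icc t₀ t ⊆ Ico t₀ T := fun s hs => ⟨hs.1, lt_of_le_of_lt hs.2 ht.2⟩
  obtain ⟨ρ', h1, h2⟩ := cext ht.1.le (hR.cont.mono hs)
  exact ⟨ρ', h1, h2, fun s h => by rw [h2 s h]; exact hR.pos s (hs h)⟩

/-- The criterion. -/
theorem crit_m : ∃ c : ℝ, 0 < c ∧ ∀ (T t₀ : ℝ) (u : ℝ → E3 → E3) (p : ℝ → E3 → ℝ),
    IsHInfAxisymNS T u p → 0 ≤ t₀ → t₀ < T → ∀ ρ : ℝ → ℝ, Rad T t₀ u ρ → Integrable (sO (u t₀)) → ∀ C : ℝ,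
    (∀ t ∈ Ioo t₀ T, ∃ᶠ κ in 𝓝[>] (0:ℝ), ∫ s in t₀..t, nk (ρ s) κ (sV (u s)) (sO (u s)) ≤ C + c * ll (T - t) ^ (1/36 : ℝ)) →
    Small T u := by
  obtain ⟨c, hc, H⟩ := mainA
  refine ⟨c / 2, by positivity, fun T t₀ u p h h0 h1 ρ hR hi C hN => ?_⟩
  have F := flow_of h
  obtain ⟨E, hE⟩ := hR.bdd
  obtain ⟨J, hJ⟩ : ∃ J : ℝ, J = ∫ x, |sO (u t₀) x| := ⟨_, rfl⟩
  obtain ⟨b, hab, hbT, hb⟩ := MainB_ll (T := T) (A := J + E + C) (c := c / 2) (by positivity) h1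
  obtain ⟨b', hb'⟩ : ∃ b' : ℝ, b' = max b ((t₀ + T) / 2) := ⟨_, rfl⟩
  have hb'T : b' < T := by rw [hb']; exact max_lt hbT (by linarith)
  have hb't : t₀ < b' := by
    rw [hb']
    exact lt_of_lt_of_le (by linarith) (le_max_right _ _)
  refine H T u p h 1 b' one_pos hb'T fun t ht hbt z => ?_
  have htT : t ∈ Ioo t₀ T := ⟨lt_of_lt_of_le hb't hbt, ht.2⟩
  have hI : Integrable (sO (u t)) := (step_O F h0 htT.1.le htT.2 hi).1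
  obtain ⟨ρ', hρ, hρe, hρ0⟩ := hR.ext htT
  have h2 : ∫ x, |sO (u t) x| ≤ J + E + (C + c / 2 * ll (T - t) ^ (1/36 : ℝ)) := by
    refine le_of_tendsto_of_frequently (ja_lim F ht hI) ((hN t htT).and_eventually self_mem_nhdsWithin |>.mono ?_)
    rintro κ ⟨hk, hκ⟩
    have h3 := ev_k F h0 htT.1.le htT.2 hi hρ hκ
    have h4 := far_le h hρ hρ0 h0 htT.1.le htT.2 (g := fk (fun t => sV (u t)) (fun t => sO (u t)) κ)
      (fun s hs => fk_int F hκ ⟨h0.trans hs.1, hs.2.trans_lt htT.2⟩) (fun s _ x => fk_le hκ s x)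
      (fk_ii F hκ (cylr_MF hρ).cpl h0 htT.1.le htT.2)
    have e1 := cx_int htT.1.le hρe fun r s => nk r κ (sV (u s)) (sO (u s))
    have e2 := cx_int htT.1.le hρe fun r s => (∫ x, dsq (u s) x) / r
    have h5 := hE t htT
    rw [e2] at h4
    rw [← hJ, e1] at h3
    linarith
  have h3 : ∫ x in Metric.ball (axp z) 1, |sO (u t) x| ≤ ∫ x, |sO (u t) x| :=
    setIntegral_le_integral hI.abs (Eventually.of_forall fun x => abs_nonneg _)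
  have h4 := hb t ((le_max_left _ _).trans (by rw [hb'] at hbt; exact hbt)) ht.2
  linarith

end Pool.Agent.H73.SG
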