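/-
The sign of the integral of sgn(g) v' on a line, when v vanishes between a positive value of g and a later negative value of g.
-/
import Mathlib

set_option autoImplicit false

open Set Filter Topology MeasureTheory

namespace Pool.Agent.H73.SG

theorem Sn_min {v v' : ℝ → ℝ} (hv : ∀ z, HasDerivAt v (v' z) z) (h0 : ∀ z, 0 ≤ v z) {z : ℝ} (hz : v z = 0) : v' z = 0 := by
  have h1 : IsLocalMin v z := Eventually.of_forall fun y => by rw [hz]; exact h0 y
  exact h1.hasDerivAt_eq_zero (hv z)

theorem Sn_tot {v v' : ℝ → ℝ} (hv : ∀ z, HasDerivAt v (v' z) z) (hi : Integrable v) (hi' : Integrable v') (ζ : ℝ) :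
    ∫ z in Ioi ζ, v' z = - v ζ ∧ ∫ z in Iic ζ, v' z = v ζ := by
  have h1 : Tendsto v atTop (𝓝 0) := tendsto_zero_of_hasDerivAt_of_integrableOn_Ioi (a := 0) (fun x _ => hv x)
    hi'.integrableOn hi.integrableOn
  have h2 : Tendsto v atBot (𝓝 0) := tendsto_zero_of_hasDerivAt_of_integrableOn_Iic (a := 0) (fun x _ => hv x)
    hi'.integrableOn hi.integrableOn
  constructor
  · rw [integral_Ioi_of_hasDerivAt_of_tendsto' (fun x _ => hv x) hi'.integrableOn h1]
    ring
  · rw [integral_Iic_of_hasDerivAt_of_tendsto' (fun x _ => hv x) hi'.integrableOn h2]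
    ring

/-- One change of sign, from `-` to `+`, on the set where `v` is positive. -/
theorem sgA {v v' g : ℝ → ℝ} (hv : ∀ z, HasDerivAt v (v' z) z) (h0 : ∀ z, 0 ≤ v z) (hi : Integrable v) (hi' : Integrable v')
    (h2 : ∀ z z', z < z' → 0 < v z → 0 < v z' → 0 < g z → 0 ≤ g z') (h3 : ∀ᵐ z, g z = 0 → v' z = 0) :
    ∫ z, Real.sign (g z) * v' z ≤ 0 := by
  have hz : ∀ z, v z = 0 → v' z = 0 := fun z h => Sn_min hv h0 h
  have htot : ∫ z, v' z = 0 := integral_eq_zero_of_hasDerivAt_of_integrable hv hi' hi
  by_cases hP : ∃ z, 0 < v z ∧ 0 < g z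
  · by_cases hB : BddBelow {z | 0 < v z ∧ 0 < g z}
    · obtain ⟨ζ, hζ⟩ : ∃ ζ : ℝ, ζ = sInf {z | 0 < v z ∧ 0 < g z} := ⟨_, rfl⟩
      obtain ⟨k1, k2⟩ := Sn_tot hv hi hi' ζ
      have hR : ∀ᵐ z, ζ < z → Real.sign (g z) * v' z = v' z := by
        filter_upwards [h3] with z hz3 hlt
        rcases (h0 z).eq_or_lt with hv0 | hv0
        · rw [hz z hv0.symm, mul_zero]
        · have hPn : {z | 0 < v z ∧ 0 < g z}.Nonempty := hP
          have hlt' : sInf {z | 0 < v z ∧ 0 < g z} < z := by rw [← hζ]; exact hlt
          obtain ⟨y, hy, hyz⟩ := exists_lt_of_csInf_lt hPn hlt'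
          have h4 := h2 y z hyz hy.1 hv0 hy.2
          rcases h4.eq_or_lt with h5 | h5
          · rw [hz3 h5.symm, mul_zero]
          · rw [Real.sign_of_pos h5, one_mul]
      have hL : ∀ᵐ z, z ≤ ζ → Real.sign (g z) * v' z = - v' z := by
        have hne : ∀ᵐ z : ℝ, z ≠ ζ := by
          rw [ae_iff]
          simp
        filter_upwards [h3, hne] with z hz3 hzζ hle
        have hlt : z < ζ := lt_of_le_of_ne hle hzζ
        rcases (h0 z).eq_or_lt with hv0 | hv0
        · rw [hz z hv0.symm, mul_zero, neg_zero]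
        · have h4 : g z ≤ 0 := by
            by_contra hcon
            have h5 : sInf {z | 0 < v z ∧ 0 < g z} ≤ z := csInf_le hB ⟨hv0, not_le.1 hcon⟩
            rw [← hζ] at h5
            linarith
          rcases h4.eq_or_lt with h5 | h5
          · rw [hz3 h5, mul_zero, neg_zero]
          · rw [Real.sign_of_neg h5]
            ring
      have eR : ∫ z in Ioi ζ, Real.sign (g z) * v' z = ∫ z in Ioi ζ, v' z :=
        setIntegral_congr_ae measurableSet_Ioi (hR.mono fun z hz hm => hz hm)
      have eL : ∫ z in Iic ζ, Real.sign (g z) * v' z = ∫ z in Iic ζ, - v' z :=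
        setIntegral_congr_ae measurableSet_Iic (hL.mono fun z hz hm => hz hm)
      have iR : IntegrableOn (fun z => Real.sign (g z) * v' z) (Ioi ζ) := by
        refine (hi'.integrableOn (s := Ioi ζ)).congr ?_
        rw [EventuallyEq, ae_restrict_iff' measurableSet_Ioi]
        exact hR.mono fun z hz hm => (hz hm).symm
      have iL : IntegrableOn (fun z => Real.sign (g z) * v' z) (Iic ζ) := by
        refine (hi'.neg.integrableOn (s := Iic ζ)).congr ?_
        rw [EventuallyEq, ae_restrict_iff' measurableSet_Iic]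
        exact hL.mono fun z hz hm => (hz hm).symm
      rw [← intervalIntegral.integral_Iic_add_Ioi iL iR, eL, eR, integral_neg, k1, k2]
      linarith [h0 ζ]
    · have e1 : ∀ᵐ z, Real.sign (g z) * v' z = v' z := by
        filter_upwards [h3] with z hz3
        rcases (h0 z).eq_or_lt with hv0 | hv0
        · rw [hz z hv0.symm, mul_zero]
        · obtain ⟨y, hy, hyz⟩ := not_bddBelow_iff.1 hB z
          have h4 := h2 y z hyz hy.1 hv0 hy.2
          rcases h4.eq_or_lt with h5 | h5
          · rw [hz3 h5.symm, mul_zero]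
          · rw [Real.sign_of_pos h5, one_mul]
      rw [integral_congr_ae e1, htot]
  · have e1 : ∀ᵐ z, Real.sign (g z) * v' z = - v' z := by
      filter_upwards [h3] with z hz3
      rcases (h0 z).eq_or_lt with hv0 | hv0
      · rw [hz z hv0.symm, mul_zero, neg_zero]
      · have h4 : g z ≤ 0 := by
          by_contra hcon
          exact hP ⟨z, hv0, not_le.1 hcon⟩
        rcases h4.eq_or_lt with h5 | h5
        · rw [hz3 h5, mul_zero, neg_zero]
        · rw [Real.sign_of_neg h5]
          ring
    rw [integral_congr_ae e1, integral_neg, htot, neg_zero]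

/-- Restriction to a component of the set where `v` is positive. -/
theorem Sn_comp {v v' : ℝ → ℝ} (hv : ∀ z, HasDerivAt v (v' z) z) (h0 : ∀ z, 0 ≤ v z) (x : ℝ) (z : ℝ) :
    HasDerivAt ((connectedComponentIn {z | 0 < v z} x).indicator v) ((connectedComponentIn {z | 0 < v z} x).indicator v' z) z := by
  have hc : Continuous v := continuous_iff_continuousAt.2 fun z => (hv z).continuousAt
  have hU : IsOpen {z | 0 < v z} := isOpen_lt continuous_const hc
  obtain ⟨C, hC⟩ : ∃ C : Set ℝ, C = connectedComponentIn {z | 0 < v z} x := ⟨_, rfl⟩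
  have hCo : IsOpen C := by rw [hC]; exact hU.connectedComponentIn
  rw [← hC]
  by_cases hz : z ∈ C
  · rw [indicator_of_mem hz]
    refine (hv z).congr_of_eventuallyEq ?_
    filter_upwards [hCo.mem_nhds hz] with y hy
    exact indicator_of_mem hy v
  · rw [indicator_of_notMem hz]
    rcases (h0 z).eq_or_lt with hv0 | hv0
    · have h1 := hv z
      rw [Sn_min hv h0 hv0.symm] at h1
      rw [hasDerivAt_iff_isLittleO] at h1 ⊢
      refine Asymptotics.IsBigO.trans_isLittleO (Asymptotics.IsBigO.of_bound 1 (Eventually.of_forall fun y => ?_)) h1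
      rw [indicator_of_notMem hz, ← hv0, one_mul, smul_zero, sub_zero, sub_zero]
      by_cases hy : y ∈ C
      · rw [indicator_of_mem hy, sub_zero, sub_zero]
      · rw [indicator_of_notMem hy, norm_zero]
        exact norm_nonneg _
    · have hzU : z ∈ {z | 0 < v z} := hv0
      have hD : IsOpen (connectedComponentIn {z | 0 < v z} z) := hU.connectedComponentIn
      refine (hasDerivAt_const z (0:ℝ)).congr_of_eventuallyEq ?_
      filter_upwards [hD.mem_nhds (mem_connectedComponentIn hzU)] with y hy
      refine indicator_of_notMem (fun hyC => hz ?_) v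
      have e1 := connectedComponentIn_eq hy
      rw [hC] at hyC ⊢
      have e2 := connectedComponentIn_eq hyC
      rw [e2, ← e1]
      exact mem_connectedComponentIn hzU

/-- The general case. -/
theorem sgB {v v' g : ℝ → ℝ} (hv : ∀ z, HasDerivAt v (v' z) z) (h0 : ∀ z, 0 ≤ v z) (hi : Integrable v) (hi' : Integrable v')
    (hs : Integrable (fun z => Real.sign (g z) * v' z))
    (h2 : ∀ z z', z < z' → 0 < g z → g z' < 0 → ∃ ζ ∈ Icc z z', v ζ = 0) (h3 : ∀ᵐ z, g z = 0 → v' z = 0) :
    ∫ z, Real.sign (g z) * v' z ≤ 0 := by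
  have hc : Continuous v := continuous_iff_continuousAt.2 fun z => (hv z).continuousAt
  obtain ⟨U, hUd⟩ : ∃ U : Set ℝ, U = {z | 0 < v z} := ⟨_, rfl⟩
  have hU : IsOpen U := by rw [hUd]; exact isOpen_lt continuous_const hc
  obtain ⟨F, hF⟩ : ∃ F : Set (Set ℝ), F = {C | ∃ x ∈ U, C = connectedComponentIn U x} := ⟨_, rfl⟩
  have hFo : ∀ C ∈ F, IsOpen C := by
    intro C hC
    rw [hF] at hC
    obtain ⟨x, hx, rfl⟩ := hC
    exact hU.connectedComponentIn
  have hFn : ∀ C ∈ F, C.Nonempty := by
    intro C hC
    rw [hF] at hC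
    obtain ⟨x, hx, rfl⟩ := hC
    exact ⟨x, mem_connectedComponentIn hx⟩
  have hFd : F.PairwiseDisjoint id := by
    intro C hC D hD hCD
    rw [hF] at hC hD
    obtain ⟨x, hx, rfl⟩ := hC
    obtain ⟨y, hy, rfl⟩ := hD
    show Disjoint (connectedComponentIn U x) (connectedComponentIn U y)
    rw [Set.disjoint_left]
    intro z hzx hzy
    exact hCD ((connectedComponentIn_eq hzx).trans (connectedComponentIn_eq hzy).symm)
  have hFc : F.Countable := hFd.countable_of_isOpen hFo hFn
  have hFU : ⋃ C : F, (C : Set ℝ) = U := by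
    ext z
    simp only [mem_iUnion]
    constructor
    · rintro ⟨⟨C, hC⟩, hz⟩
      rw [hF] at hC
      obtain ⟨x, hx, rfl⟩ := hC
      exact connectedComponentIn_subset _ _ hz
    · intro hz
      exact ⟨⟨connectedComponentIn U z, by rw [hF]; exact ⟨z, hz, rfl⟩⟩, mem_connectedComponentIn hz⟩
  have hsub : ∫ z, Real.sign (g z) * v' z = ∫ z in U, Real.sign (g z) * v' z := by
    refine (setIntegral_eq_integral_of_forall_compl_eq_zero fun z hz => ?_).symm
    have h4 : v z = 0 := by
      rw [hUd] at hz
      exact le_antisymm (not_lt.1 hz) (h0 z)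
    rw [Sn_min hv h0 h4, mul_zero]
  have : Countable F := hFc.to_subtype
  have hdj : Pairwise (Function.onFun Disjoint fun C : F => (C : Set ℝ)) := fun C D hCD =>
    hFd C.2 D.2 (fun h => hCD (Subtype.ext h))
  have hsum := integral_iUnion (μ := volume) (f := fun z => Real.sign (g z) * v' z) (s := fun C : F => (C : Set ℝ))
    (fun C => (hFo C.1 C.2).measurableSet) hdj hs.integrableOn
  rw [hsub, ← hFU, hsum]
  · refine tsum_nonpos fun C => ?_
    obtain ⟨C, hC⟩ := C
    have hCm := (hFo C hC).measurableSet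
    show ∫ z in C, Real.sign (g z) * v' z ≤ 0
    rw [hF] at hC
    obtain ⟨x, hx, hCx⟩ := hC
    have hd : ∀ z, HasDerivAt (C.indicator v) (C.indicator v' z) z := by
      intro z
      rw [hCx, hUd]
      exact Sn_comp hv h0 x z
    have e1 : ∫ z in C, Real.sign (g z) * v' z = ∫ z, Real.sign (g z) * C.indicator v' z := by
      rw [← integral_indicator hCm]
      refine integral_congr_ae (Eventually.of_forall fun z => ?_)
      show C.indicator (fun z => Real.sign (g z) * v' z) z = Real.sign (g z) * C.indicator v' z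
      by_cases hz : z ∈ C
      · rw [indicator_of_mem hz, indicator_of_mem hz]
      · rw [indicator_of_notMem hz, indicator_of_notMem hz, mul_zero]
    rw [e1]
    have hpre : IsPreconnected C := by rw [hCx]; exact isPreconnected_connectedComponentIn
    have hord := hpre.ordConnected
    have hCU : C ⊆ U := by rw [hCx]; exact connectedComponentIn_subset _ _
    have hmem : ∀ z, 0 < C.indicator v z → z ∈ C := by
      intro z hz
      by_contra hcon
      rw [indicator_of_notMem hcon] at hz
      exact lt_irrefl _ hz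
    refine sgA hd (fun z => indicator_nonneg (fun z _ => h0 z) z) (hi.indicator hCm) (hi'.indicator hCm) ?_ ?_
    · intro z z' hzz hz hz' hg
      by_contra hcon
      obtain ⟨ζ, hζ, hvζ⟩ := h2 z z' hzz hg (not_le.1 hcon)
      have h5 : ζ ∈ U := hCU (hord.out (hmem z hz) (hmem z' hz') hζ)
      rw [hUd] at h5
      have h6 : 0 < v ζ := h5
      linarith
    · filter_upwards [h3] with z hz hg
      by_cases hzC : z ∈ C
      · rw [indicator_of_mem hzC, hz hg]
      · rw [indicator_of_notMem hzC]

end Pool.Agent.H73.SG
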