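/-
On the set where ω_θ vanishes, ∂_z (u_θ²) vanishes almost everywhere.
-/
import Pool.Agent.H73.SG.Fub
import Pool.Agent.H87.NS.VEq

set_option autoImplicit false

open Set Filter Topology MeasureTheory
open scoped ContDiff

namespace Pool.Agent.H73.SG

open Pool.Agent.H16 Pool.Agent.H87.NS

/-- Zeros with nonzero derivative are isolated. -/
theorem z1 (f : ℝ → ℝ) : ∀ᵐ t : ℝ, f t = 0 → deriv f t = 0 := by
  rw [ae_iff]
  refine measure_null_of_locally_null _ fun x hx => ?_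
  replace hx : ¬ (f x = 0 → deriv f x = 0) := hx
  rw [Classical.not_imp] at hx
  obtain ⟨h0, h1⟩ := hx
  have hd : HasDerivAt f (deriv f x) x := (differentiableAt_of_deriv_ne_zero h1).hasDerivAt
  have h2 : ∀ᶠ z in 𝓝[≠] x, f z ≠ 0 := hd.eventually_ne h1
  refine ⟨{x}, ?_, by simp⟩
  rw [mem_nhdsWithin_iff_eventually]
  filter_upwards [eventually_nhdsWithin_iff.1 h2] with z hz hz2
  replace hz2 : ¬ (f z = 0 → deriv f z = 0) := hz2
  rw [Classical.not_imp] at hz2
  by_contra hne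
  exact hz hne hz2.1

theorem z2 {g : E3 → ℝ} (hg : ContDiff ℝ ∞ g) (i : Fin 3) : ∀ᵐ x : E3, g x = 0 → pd i g x = 0 := by
  have hm : MeasurableSet {x : E3 | g x = 0 → pd i g x = 0} := by
    have h1 : MeasurableSet {x : E3 | g x = 0} := measurableSet_eq_fun hg.continuous.measurable measurable_const
    have h2 : MeasurableSet {x : E3 | pd i g x = 0} := measurableSet_eq_fun (pd_smooth hg i).continuous.measurable measurable_const
    have e1 : {x : E3 | g x = 0 → pd i g x = 0} = {x : E3 | g x = 0}ᶜ ∪ {x : E3 | pd i g x = 0} := by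
      ext x
      show (g x = 0 → pd i g x = 0) ↔ (¬ g x = 0) ∨ pd i g x = 0
      tauto
    rw [e1]
    exact h1.compl.union h2
  let L : ℝ →L[ℝ] E3 := ContinuousLinearMap.smulRight (1 : ℝ →L[ℝ] ℝ) (e i)
  refine ae_mem_of_ae_add_linearMap_mem L.toLinearMap volume volume hm fun y => ?_
  have h1 := z1 (fun t : ℝ => g (y + t • e i))
  filter_upwards [h1] with t ht
  have e1 : y + L.toLinearMap t = y + t • e i := by simp [L]
  rw [e1]
  intro h0
  have h2 := ht h0
  have h3 : HasDerivAt (fun t : ℝ => y + t • e i) (e i) t := by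
    have := ((hasDerivAt_id t).smul_const (e i)).const_add y
    simpa using this
  have h4 : HasDerivAt (fun t : ℝ => g (y + t • e i)) (pd i g (y + t • e i)) t :=
    ((hg.differentiable (by simp)) (y + t • e i)).hasFDerivAt.comp_hasDerivAt t h3
  rw [h4.deriv] at h2
  exact h2

theorem z_axis : ∀ᵐ x : E3, 0 < rsq x := by
  have hc : ContDiff ℝ ∞ (fun x : E3 => x 0) := Far_coord 0
  filter_upwards [z2 hc 0] with x hx
  rw [Far_pd_coord] at hx
  have h1 : x 0 ≠ 0 := by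
    intro h
    have := hx h
    simp [e] at this
  unfold rsq
  positivity

variable {T : ℝ} {u : ℝ → E3 → E3} {p : ℝ → E3 → ℝ}

/-- The time derivative. -/
theorem z3 (h : IsAxisymNS T u p) :
    ∀ᵐ t : ℝ, t ∈ Ioo 0 T → ∀ᵐ x : E3, 0 < rsq x → sO (u t) x = 0 → deriv (fun s => sO (u s) x) t = 0 := by
  obtain ⟨U, hU⟩ : ∃ U : Set (ℝ × E3), U = Ioo 0 T ×ˢ {x | 0 < rsq x} := ⟨_, rfl⟩
  have hrc : Continuous rsq := by unfold rsq; fun_prop
  have hUo : IsOpen U := by
    rw [hU]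
    exact isOpen_Ioo.prod (isOpen_lt continuous_const hrc)
  have hj : ContDiffOn ℝ ∞ (fun q : ℝ × E3 => sO (u q.1) q.2) U := by
    rw [hU]
    exact jointO h
  have hmem : ∀ t x, (t, x) ∈ U ↔ t ∈ Ioo 0 T ∧ 0 < rsq x := fun t x => by
    rw [hU]
    exact Iff.rfl
  have hd : ContinuousOn (fun q : ℝ × E3 => deriv (fun s => sO (u s) q.2) q.1) U := by
    have h1 : ContinuousOn (fun q : ℝ × E3 => fderiv ℝ (fun q : ℝ × E3 => sO (u q.1) q.2) q ((1 : ℝ), (0 : E3))) U :=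
      (hj.continuousOn_fderiv_of_isOpen hUo (by simp)).clm_apply continuousOn_const
    refine h1.congr fun q hq => ?_
    have h2 : HasFDerivAt (fun q : ℝ × E3 => sO (u q.1) q.2) (fderiv ℝ (fun q : ℝ × E3 => sO (u q.1) q.2) q) q :=
      ((hj.contDiffAt (hUo.mem_nhds hq)).differentiableAt (by simp)).hasFDerivAt
    have h3 : HasDerivAt (fun s : ℝ => (s, q.2)) ((1 : ℝ), (0 : E3)) q.1 := (hasDerivAt_id q.1).prodMk (hasDerivAt_const q.1 q.2)
    exact (h2.comp_hasDerivAt q.1 h3).deriv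
  have hm : MeasurableSet {q : ℝ × E3 | q ∈ U → sO (u q.1) q.2 = 0 → deriv (fun s => sO (u s) q.2) q.1 = 0} := by
    have k1 : MeasurableSet (U ∩ (fun q : ℝ × E3 => sO (u q.1) q.2) ⁻¹' {0}) := by
      have h1 : MeasurableSet (U ∩ (fun q : ℝ × E3 => sO (u q.1) q.2) ⁻¹' {0}ᶜ) :=
        (hj.continuousOn.isOpen_inter_preimage hUo isOpen_compl_singleton).measurableSet
      have e1 : U ∩ (fun q : ℝ × E3 => sO (u q.1) q.2) ⁻¹' {0} = U \ (U ∩ (fun q : ℝ × E3 => sO (u q.1) q.2) ⁻¹' {0}ᶜ) := by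
        ext q
        simp only [mem_inter_iff, mem_preimage, mem_singleton_iff, Set.mem_sdiff, mem_compl_iff]
        tauto
      rw [e1]
      exact hUo.measurableSet.diff h1
    have k2 : MeasurableSet (U ∩ (fun q : ℝ × E3 => deriv (fun s => sO (u s) q.2) q.1) ⁻¹' {0}ᶜ) :=
      (hd.isOpen_inter_preimage hUo isOpen_compl_singleton).measurableSet
    have e2 : {q : ℝ × E3 | q ∈ U → sO (u q.1) q.2 = 0 → deriv (fun s => sO (u s) q.2) q.1 = 0} =
        ((U ∩ (fun q : ℝ × E3 => sO (u q.1) q.2) ⁻¹' {0}) ∩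
          (U ∩ (fun q : ℝ × E3 => deriv (fun s => sO (u s) q.2) q.1) ⁻¹' {0}ᶜ))ᶜ := by
      ext q
      show (q ∈ U → sO (u q.1) q.2 = 0 → deriv (fun s => sO (u s) q.2) q.1 = 0) ↔
        ¬ ((q ∈ U ∧ sO (u q.1) q.2 = 0) ∧ (q ∈ U ∧ ¬ deriv (fun s => sO (u s) q.2) q.1 = 0))
      tauto
    rw [e2]
    exact (k1.inter k2).compl
  have h1 : ∀ᵐ x : E3, ∀ᵐ t : ℝ, ((t, x) ∈ U → sO (u t) x = 0 → deriv (fun s => sO (u s) x) t = 0) := by
    refine Eventually.of_forall fun x => ?_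
    filter_upwards [z1 (fun t => sO (u t) x)] with t ht _
    exact ht
  have h2 := (Measure.ae_ae_comm (μ := (volume : Measure ℝ)) (ν := (volume : Measure E3))
    (p := fun t x => ((t, x) ∈ U → sO (u t) x = 0 → deriv (fun s => sO (u s) x) t = 0)) hm).2 h1
  filter_upwards [h2] with t ht hT
  filter_upwards [ht] with x hx hr
  exact hx ((hmem t x).2 ⟨hT, hr⟩)

/-- On the set where `ω_θ` vanishes, the source vanishes. -/
theorem zset (h : IsHInfAxisymNS T u p) :
    ∀ᵐ t : ℝ, t ∈ Ioo 0 T → ∀ᵐ x : E3, sO (u t) x = 0 → src (sV (u t)) x = 0 := by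
  filter_upwards [z3 h.ns] with t ht hT
  have hT' : t ∈ Ico 0 T := ⟨hT.1.le, hT.2⟩
  have hO : ContDiff ℝ ∞ (sO (u t)) := (svw_smooth h.ns hT').2.2
  have a0 := z2 hO 0
  have a1 := z2 hO 1
  have a2 := z2 hO 2
  have b0 := z2 (pd_smooth hO 0) 0
  have b1 := z2 (pd_smooth hO 1) 1
  have b2 := z2 (pd_smooth hO 2) 2
  filter_upwards [ht hT, a0, a1, a2, b0, b1, b2, z_axis] with x h1 a0 a1 a2 b0 b1 b2 hr h0
  have h2 := Om_eq h.ns hT x hr
  have c0 := a0 h0
  have c1 := a1 h0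
  have c2 := a2 h0
  have d0 := b0 c0
  have d1 := b1 c1
  have d2 := b2 c2
  have e1 : adv (u t x) (sO (u t)) x = 0 := by
    unfold adv
    rw [Fin.sum_univ_three, c0, c1, c2]
    ring
  have e2 : lap (sO (u t)) x = 0 := by
    unfold lap
    rw [Fin.sum_univ_three, d0, d1, d2]
    ring
  have e3 : rdr (sO (u t)) x = 0 := by
    unfold rdr
    rw [c0, c1]
    ring
  rw [h1 hr h0, e1, e2, e3] at h2
  unfold src
  linarith

end Pool.Agent.H73.SG
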