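/-
Special cases of the criterion.
-/
import Pool.Agent.H73.SG.Crm
import Pool.Agent.H73.SG.Zs
import Pool.Agent.H73.SG.Sn

set_option autoImplicit false

open Set Filter Topology MeasureTheory
open scoped ContDiff

namespace Pool.Agent.H73.SG

open Pool.Agent.H16 Pool.Agent.H87.NS Pool.Agent.H72.CC

variable {T t₀ : ℝ} {u : ℝ → E3 → E3} {p : ℝ → E3 → ℝ}

/-- From an upper bound of the net production to the hypothesis of the criterion. -/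
theorem co_q (h : IsHInfAxisymNS T u p) (h0 : 0 ≤ t₀) {ρ : ℝ → ℝ} (hρ : ContinuousOn ρ (Ico t₀ T)) {q : ℝ → ℝ} {t B : ℝ}
    (ht : t ∈ Ioo t₀ T) (hq : IntervalIntegrable q volume t₀ t) (hB : ∫ s in t₀..t, q s ≤ B)
    (hN : ∀ s ∈ Ioc t₀ t, ∀ ε > 0, ∀ᶠ κ in 𝓝[>] (0:ℝ), nk (ρ s) κ (sV (u s)) (sO (u s)) ≤ q s + ε) :
    ∃ᶠ κ in 𝓝[>] (0:ℝ), ∫ s in t₀..t, nk (ρ s) κ (sV (u s)) (sO (u s)) ≤ B + 1 := by
  have F := flow_of h
  obtain ⟨ρ', hρ', hρe⟩ := cext ht.1.le (hρ.mono fun s hs => ⟨hs.1, lt_of_le_of_lt hs.2 ht.2⟩)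
  have h1 := ev_q F h0 ht.1.le ht.2 hρ' hq (fun s hs ε hε => by rw [hρe s ⟨hs.1.le, hs.2⟩]; exact hN s hs ε hε) one_pos
  have h2 : ∀ᶠ n in atTop, ∫ s in t₀..t, nk (ρ s) (kn n) (sV (u s)) (sO (u s)) ≤ B + 1 := by
    filter_upwards [h1] with n hn
    have hn' : ∫ s in t₀..t, nk (ρ' s) (kn n) (sV (u s)) (sO (u s)) ≤ (∫ s in t₀..t, q s) + 1 := hn
    have e1 := cx_int ht.1.le hρe fun r s => nk r (kn n) (sV (u s)) (sO (u s))
    rw [e1] at hn'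
    linarith
  exact kn_lim'.frequently h2.frequently

/-- Integrability in time. -/
theorem co_ii (h : IsHInfAxisymNS T u p) (h0 : 0 ≤ t₀) {ρ : ℝ → ℝ} (hρ : ContinuousOn ρ (Ico t₀ T)) {t : ℝ} (ht : t ∈ Ioo t₀ T) :
    IntervalIntegrable (fun s => ∫ x in cylr (ρ s), fi (fun t => sV (u t)) (fun t => sO (u t)) s x) volume t₀ t := by
  have F := flow_of h
  obtain ⟨ρ', hρ', hρe⟩ := cext ht.1.le (hρ.mono fun s hs => ⟨hs.1, lt_of_le_of_lt hs.2 ht.2⟩)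
  refine (fi_ii F (cylr_MF hρ') h0 ht.1.le ht.2).congr fun s hs => ?_
  rw [uIoc_of_le ht.1.le] at hs
  show ∫ x in cylr (ρ' s), fi (fun t => sV (u t)) (fun t => sO (u t)) s x =
    ∫ x in cylr (ρ s), fi (fun t => sV (u t)) (fun t => sO (u t)) s x
  rw [hρe s ⟨hs.1.le, hs.2⟩]

/-- The integral of `sgn(ω_θ) ∂_z (u_θ²) / r²`. -/
theorem co_D (h : IsHInfAxisymNS T u p) (h0 : 0 ≤ t₀) {ρ : ℝ → ℝ} (hρ : ContinuousOn ρ (Ico t₀ T)) {t B : ℝ} (ht : t ∈ Ioo t₀ T)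
    (hB : ∫ s in t₀..t, ∫ x in cylr (ρ s), fi (fun t => sV (u t)) (fun t => sO (u t)) s x ≤ B) :
    ∃ᶠ κ in 𝓝[>] (0:ℝ), ∫ s in t₀..t, nk (ρ s) κ (sV (u s)) (sO (u s)) ≤ B + 1 :=
  co_q h h0 hρ ht (co_ii h h0 hρ ht) hB fun s hs _ hε =>
    nk_lim (flow_of h) ⟨h0.trans hs.1.le, lt_of_le_of_lt hs.2 ht.2⟩ (ρ s) hε

/-- The pointwise condition near the zeros of `ω_θ`. -/
theorem co_C (h : IsHInfAxisymNS T u p) (h0 : 0 ≤ t₀) {ρ : ℝ → ℝ} (hρ : ContinuousOn ρ (Ico t₀ T)) {t : ℝ} (ht : t ∈ Ioo t₀ T)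
    (hN : ∀ s ∈ Ioo t₀ T, ∃ δ > 0, ∀ x, rad x < ρ s → |sO (u s) x| < δ →
      -(sV (u s) x ^ 2 * pd 2 (sO (u s)) x) ≤ gsq (sO (u s)) x) :
    ∃ᶠ κ in 𝓝[>] (0:ℝ), ∫ s in t₀..t, nk (ρ s) κ (sV (u s)) (sO (u s)) ≤ 0 + 1 := by
  have F := flow_of h
  refine co_q h h0 hρ (q := fun _ => 0) ht intervalIntegrable_const (by simp) fun s hs ε hε => ?_
  obtain ⟨δ, hδ, hN'⟩ := hN s ⟨hs.1, lt_of_le_of_lt hs.2 ht.2⟩
  have h1 := nk_pt F ⟨h0.trans hs.1.le, lt_of_le_of_lt hs.2 ht.2⟩ (r₀ := ρ s) hδ hN' hε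
  filter_upwards [h1] with κ hκ
  rw [zero_add]
  exact hκ

/-- The swirl vanishes between a point with `ω_θ > 0` and a higher point with `ω_θ < 0`. -/
theorem co_P (h : IsHInfAxisymNS T u p) {ρ : ℝ → ℝ}
    (hP : ∀ s ∈ Ioo t₀ T, ∀ w : ℝ × ℝ, 0 < √(w.1 ^ 2 + w.2 ^ 2) → √(w.1 ^ 2 + w.2 ^ 2) < ρ s → ∀ z z', z < z' →
      0 < sO (u s) (ct (z, w)) → sO (u s) (ct (z', w)) < 0 → ∃ ζ ∈ Icc z z', sV (u s) (ct (ζ, w)) = 0) :
    ∀ᵐ s : ℝ, s ∈ Ioo t₀ T → 0 < s → ∫ x in cylr (ρ s), fi (fun t => sV (u t)) (fun t => sO (u t)) s x ≤ 0 := by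
  have F := flow_of h
  filter_upwards [zset h] with s hz hs hs0
  have hsT : s ∈ Ioo 0 T := ⟨hs0, hs.2⟩
  have hsI : s ∈ Ico 0 T := ⟨hs0.le, hs.2⟩
  have hz' := fub_ae (hz hsT)
  have hfi := fi_int F hsI
  obtain ⟨K, hK0, hK, hV2⟩ := Nd_bd F hsI
  obtain ⟨hV, hO⟩ := Nd_sm F hsI
  obtain ⟨K', _, hsrc⟩ := src_bd F hsI.2
  have hsi := (hsrc s ⟨hs0.le, le_rfl⟩).1
  have hax : ∀ᵐ w : ℝ × ℝ, 0 < √(w.1 ^ 2 + w.2 ^ 2) := by
    have h1 := fub_ae (P := fun x => 0 < rad x) (z_axis.mono fun x hx => by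
      have h2 := rad_nonneg x
      rcases h2.eq_or_lt with h3 | h3
      · have h4 := rad_sq' x
        rw [← h3] at h4
        rw [← h4] at hx
        norm_num at hx
      · exact h3)
    filter_upwards [h1] with w hw
    obtain ⟨z, hz⟩ := hw.exists
    exact hz
  refine fub_le hfi ?_
  filter_upwards [hz', fub_sl hV2, fub_sl hsi, hax] with w hzw hv hv' hw0 hr hi
  have hd : ∀ z, HasDerivAt (fun z : ℝ => sV (u s) (ct (z, w)) ^ 2) (src (sV (u s)) (ct (z, w))) z := by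
    intro z
    have h1 := (ct_der (hV.differentiable (by simp)) w z).pow 2
    have e1 : src (sV (u s)) (ct (z, w)) = ((2 : ℕ) : ℝ) * sV (u s) (ct (z, w)) ^ (2 - 1) * pd 2 (sV (u s)) (ct (z, w)) := by
      unfold src
      norm_num
    rw [e1]
    exact h1
  refine sgB (v := fun z => sV (u s) (ct (z, w)) ^ 2) (v' := fun z => src (sV (u s)) (ct (z, w)))
    (g := fun z => sO (u s) (ct (z, w))) hd (fun z => sq_nonneg _) hv hv' hi ?_ hzw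
  intro z z' hlt h1 h2
  obtain ⟨ζ, hζ, h3⟩ := hP s hs w hw0 hr z z' hlt h1 h2
  refine ⟨ζ, hζ, ?_⟩
  show sV (u s) (ct (ζ, w)) ^ 2 = 0
  rw [h3]
  norm_num

theorem co_P' (h : IsHInfAxisymNS T u p) (h0 : 0 ≤ t₀) {ρ : ℝ → ℝ}
    (hP : ∀ s ∈ Ioo t₀ T, ∀ w : ℝ × ℝ, 0 < √(w.1 ^ 2 + w.2 ^ 2) → √(w.1 ^ 2 + w.2 ^ 2) < ρ s → ∀ z z', z < z' →
      0 < sO (u s) (ct (z, w)) → sO (u s) (ct (z', w)) < 0 → ∃ ζ ∈ Icc z z', sV (u s) (ct (ζ, w)) = 0) {t : ℝ}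
    (ht : t ∈ Ioo t₀ T) :
    ∫ s in t₀..t, ∫ x in cylr (ρ s), fi (fun t => sV (u t)) (fun t => sO (u t)) s x ≤ 0 := by
  rw [intervalIntegral.integral_of_le ht.1.le]
  refine setIntegral_nonpos_ae measurableSet_Ioc ?_
  filter_upwards [co_P h hP] with s hs hm
  exact hs ⟨hm.1, lt_of_le_of_lt hm.2 ht.2⟩ (lt_of_le_of_lt h0 hm.1)

/-- Only the region where `σ ω_θ < 0` counts. -/
theorem co_N (h : IsHInfAxisymNS T u p) {σ : ℝ} (hσ : σ = 1 ∨ σ = -1) :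
    ∀ᵐ s : ℝ, s ∈ Ioo 0 T → ∀ r₀ : ℝ, ∫ x in cylr r₀, fi (fun t => sV (u t)) (fun t => sO (u t)) s x =
      2 * ∫ x in {x | rad x < r₀ ∧ σ * sO (u s) x < 0}, -(σ * H73.SG.src (sV (u s)) x) := by
  have F := flow_of h
  filter_upwards [zset h] with s hz hs r₀
  have hsI : s ∈ Ico 0 T := ⟨hs.1.le, hs.2⟩
  obtain ⟨K', _, hsrc⟩ := src_bd F hsI.2
  have hsi : Integrable (H73.SG.src (sV (u s))) := (hsrc s ⟨hs.1.le, le_rfl⟩).1
  obtain ⟨hV, hO⟩ := Nd_sm F hsI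
  obtain ⟨K, hK0, hK, hV2⟩ := Nd_bd F hsI
  have hOc : Continuous (sO (u s)) := hO.continuous
  have hm : MeasurableSet {x | σ * sO (u s) x < 0} := measurableSet_lt (hOc.measurable.const_mul σ) measurable_const
  have e0 : {x | rad x < r₀ ∧ σ * sO (u s) x < 0} = cylr r₀ ∩ {x | σ * sO (u s) x < 0} := rfl
  have hVd : ContDiff ℝ ∞ (fun x => sV (u s) x ^ 2) := hV.pow 2
  have eV : pd 2 (fun x => sV (u s) x ^ 2) = H73.SG.src (sV (u s)) := by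
    funext x
    have : (fun x => sV (u s) x ^ 2) = fun x => sV (u s) x * sV (u s) x := by
      funext x
      ring
    rw [this, EVe_pd_mul hV hV]
    unfold H73.SG.src
    ring
  have h0 : ∫ x in cylr r₀, H73.SG.src (sV (u s)) x = 0 := by
    have h1 := zint (hVd.differentiable (by simp)) hV2 (by rw [eV]; exact hsi) r₀
    rwa [eV] at h1
  have h1 : ∫ x in cylr r₀, fi (fun t => sV (u t)) (fun t => sO (u t)) s x =
      ∫ x in cylr r₀, (σ * H73.SG.src (sV (u s)) x +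
        2 * {x | σ * sO (u s) x < 0}.indicator (fun x => -(σ * H73.SG.src (sV (u s)) x)) x) := by
    refine integral_congr_ae (ae_restrict_of_ae ?_)
    filter_upwards [hz hs] with x hx
    show Real.sign (sO (u s) x) * H73.SG.src (sV (u s)) x = _
    rcases lt_trichotomy (sO (u s) x) 0 with h2 | h2 | h2
    · rw [Real.sign_of_neg h2]
      rcases hσ with rfl | rfl
      · rw [indicator_of_mem (show x ∈ {x | (1:ℝ) * sO (u s) x < 0} from by show (1:ℝ) * sO (u s) x < 0; linarith)]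
        ring
      · rw [indicator_of_notMem (show x ∉ {x | (-1:ℝ) * sO (u s) x < 0} from by show ¬ (-1:ℝ) * sO (u s) x < 0; linarith)]
        ring
    · rw [hx h2]
      rw [mul_zero, mul_zero, zero_add]
      symm
      by_cases h3 : x ∈ {x | σ * sO (u s) x < 0}
      · rw [indicator_of_mem h3, hx h2]
        ring
      · rw [indicator_of_notMem h3, mul_zero]
    · rw [Real.sign_of_pos h2]
      rcases hσ with rfl | rfl
      · rw [indicator_of_notMem (show x ∉ {x | (1:ℝ) * sO (u s) x < 0} from by show ¬ (1:ℝ) * sO (u s) x < 0; linarith)]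
        ring
      · rw [indicator_of_mem (show x ∈ {x | (-1:ℝ) * sO (u s) x < 0} from by show (-1:ℝ) * sO (u s) x < 0; linarith)]
        ring
  have i1 : Integrable (fun x => σ * H73.SG.src (sV (u s)) x) := hsi.const_mul σ
  have i2 : Integrable (fun x => 2 * {x | σ * sO (u s) x < 0}.indicator (fun x => -(σ * H73.SG.src (sV (u s)) x)) x) :=
    (i1.neg.indicator hm).const_mul 2
  rw [h1, integral_add i1.integrableOn i2.integrableOn, integral_const_mul, h0, mul_zero, zero_add, integral_const_mul,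
    setIntegral_indicator hm, e0]

end Pool.Agent.H73.SG
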