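/-
The quotients `u_θ/r` and `ω_θ/r` off the axis.
-/
import Pool.Agent.H73.SG.Co

set_option autoImplicit false

open Set Filter Topology MeasureTheory
open scoped ContDiff

namespace Pool.Agent.H73.SG

open Pool.Agent.H16 Pool.Agent.H87.NS Pool.Agent.H72.CC

/-- `v_θ / r`. -/
noncomputable def vr (v : E3 → E3) (x : E3) : ℝ := circ v x / rad x ^ 2

/-- `r ω_θ`, `ω` the curl of `v`. -/
noncomputable def rom (v : E3 → E3) (x : E3) : ℝ :=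
  x 0 * (pd 2 (fun y => v y 0) x - pd 0 (fun y => v y 2) x) - x 1 * (pd 1 (fun y => v y 2) x - pd 2 (fun y => v y 1) x)

/-- `ω_θ / r`, `ω` the curl of `v`. -/
noncomputable def omr (v : E3 → E3) (x : E3) : ℝ := rom v x / rad x ^ 2

theorem rom_eq {v : E3 → E3} (hv : ContDiff ℝ ∞ v) (x : E3) : rom v x = circ (curl v) x := by
  unfold rom circ curl
  rw [pd_comp hv, pd_comp hv, pd_comp hv, pd_comp hv]
  simp

/-- The net production. -/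
noncomputable def netProd (r₀ κ : ℝ) (v : E3 → E3) : ℝ :=
  ∫ x in {x : E3 | rad x < r₀}, κ ^ 2 / √(omr v x ^ 2 + κ ^ 2) ^ 3 * (-(vr v x ^ 2 * pd 2 (omr v) x) - gsq (omr v) x)

theorem Br_rsq {x : E3} : rsq x = rad x ^ 2 := (rad_sq' x).symm

theorem Br_pos {x : E3} (hx : 0 < rad x) : 0 < rsq x := by
  rw [Br_rsq]
  positivity

theorem Br_rad {x : E3} (hx : 0 < rsq x) : 0 < rad x := by
  rcases (rad_nonneg x).eq_or_lt with h | h
  · rw [Br_rsq, ← h] at hx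
    norm_num at hx
  · exact h

theorem vr_eq {v : E3 → E3} (hv : AxF v) {x : E3} (hx : 0 < rsq x) : vr v x = sV v x := by
  unfold vr
  rw [circ_eq hv, ← Br_rsq]
  field_simp

theorem omr_eq {v : E3 → E3} (hv : AxF v) {x : E3} (hx : 0 < rsq x) : omr v x = sO v x := by
  unfold omr
  rw [rom_eq hv.smooth, om_eq hv, ← Br_rsq]
  field_simp

theorem Br_ev {f g : E3 → ℝ} (h : ∀ x, 0 < rsq x → f x = g x) {x : E3} (hx : 0 < rsq x) : f =ᶠ[𝓝 x] g := by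
  have hrc : Continuous rsq := by unfold rsq; fun_prop
  filter_upwards [(isOpen_lt continuous_const hrc).mem_nhds hx] with y hy
  exact h y hy

theorem Br_pd {f g : E3 → ℝ} (h : ∀ x, 0 < rsq x → f x = g x) {x : E3} (hx : 0 < rsq x) (i : Fin 3) : pd i f x = pd i g x := by
  unfold pd
  rw [(Br_ev h hx).fderiv_eq]

theorem Br_gsq {f g : E3 → ℝ} (h : ∀ x, 0 < rsq x → f x = g x) {x : E3} (hx : 0 < rsq x) : gsq f x = gsq g x := by
  unfold gsq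
  exact Finset.sum_congr rfl fun i _ => by rw [Br_pd h hx i]

theorem Br_int {f g : E3 → ℝ} (h : ∀ x, 0 < rsq x → f x = g x) (r₀ : ℝ) : ∫ x in {x : E3 | rad x < r₀}, f x = ∫ x in cylr r₀, g x := by
  refine integral_congr_ae (ae_restrict_of_ae ?_)
  filter_upwards [z_axis] with x hx
  exact h x hx

theorem netProd_eq {v : E3 → E3} (hv : AxF v) (r₀ κ : ℝ) : netProd r₀ κ v = nk r₀ κ (sV v) (sO v) := by
  unfold netProd nk
  refine Br_int (fun x hx => ?_) r₀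
  rw [vr_eq hv hx, omr_eq hv hx, Br_pd (fun x hx => omr_eq hv hx) hx, Br_gsq (fun x hx => omr_eq hv hx) hx]

theorem Br_src {v : E3 → E3} (hv : AxF v) {x : E3} (hx : 0 < rsq x) : pd 2 (fun y => vr v y ^ 2) x = src (sV v) x := by
  have hV : ContDiff ℝ ∞ (sV v) := avk_smooth (VRep_coord (curl_smooth hv.smooth) 2) 1
  rw [Br_pd (f := fun y => vr v y ^ 2) (g := fun y => sV v y * sV v y)
    (fun y hy => by rw [vr_eq hv hy]; ring) hx, EVe_pd_mul hV hV]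
  unfold src
  ring

theorem Br_intg {v : E3 → E3} (hv : AxF v) (h : Integrable (omr v)) : Integrable (sO v) := by
  refine h.congr ?_
  filter_upwards [z_axis] with x hx
  exact omr_eq hv hx

variable {T t₀ : ℝ} {u : ℝ → E3 → E3} {p : ℝ → E3 → ℝ}

/-- The circulation is at most `|ln r| ^ (-α)` near the axis, for every `α`, up to the time `T`. -/
def LogSmall (T : ℝ) (u : ℝ → E3 → E3) : Prop :=
  ∀ α : ℝ, ∃ r₁ : ℝ, 0 < r₁ ∧ r₁ < 1 ∧ ∀ t ∈ Ico 0 T, ∀ x : E3, 0 < rad x → rad x < r₁ → |circ (u t) x| ≤ |Real.log (rad x)| ^ (-α)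

theorem Br_net (h : IsHInfAxisymNS T u p) (h0 : 0 ≤ t₀) (ρ : ℝ → ℝ) {t : ℝ} (ht : t ∈ Ioo t₀ T) (κ : ℝ) :
    ∫ s in t₀..t, netProd (ρ s) κ (u s) = ∫ s in t₀..t, nk (ρ s) κ (sV (u s)) (sO (u s)) := by
  refine intervalIntegral.integral_congr fun s hs => ?_
  rw [uIcc_of_le ht.1.le] at hs
  exact netProd_eq (axF_of h.ns ⟨h0.trans hs.1, lt_of_le_of_lt hs.2 ht.2⟩) (ρ s) κ

/-- The integral of `|∇v|²`. -/
noncomputable def diss (v : E3 → E3) : ℝ := ∫ x, ∑ k, gsq (fun y => v y k) x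

theorem diss_pt {v : E3 → E3} (hv : ContDiff ℝ ∞ v) (x : E3) : ∑ k, gsq (fun y => v y k) x = dsq v x := by
  unfold dsq gsq
  rw [Finset.sum_comm]
  refine Finset.sum_congr rfl fun i _ => ?_
  rw [EuclideanSpace.real_norm_sq_eq]
  exact Finset.sum_congr rfl fun j _ => by rw [pd_comp hv]

theorem diss_eq {v : E3 → E3} (hv : ContDiff ℝ ∞ v) : diss v = ∫ x, dsq v x := by
  unfold diss
  exact integral_congr_ae (Eventually.of_forall fun x => diss_pt hv x)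

theorem diss_in (h : IsHInfAxisymNS T u p) {t : ℝ} (ht : t ∈ Ico 0 T) : diss (u t) = ∫ x, dsq (u t) x :=
  diss_eq (axF_of h.ns ht).smooth

/-- Continuous positive radii `ρ(t)` with `∫ ‖∇u‖² / ρ dt` finite. -/
def Radius (T t₀ : ℝ) (u : ℝ → E3 → E3) (ρ : ℝ → ℝ) : Prop :=
  ContinuousOn ρ (Ico t₀ T) ∧ (∀ t ∈ Ico t₀ T, 0 < ρ t) ∧ ∃ K : ℝ, ∀ t ∈ Ioo t₀ T, ∫ s in t₀..t, diss (u s) / ρ s ≤ K

/-- The criterion. -/
theorem main : ∃ c : ℝ, 0 < c ∧ ∀ (T t₀ : ℝ) (u : ℝ → E3 → E3) (p : ℝ → E3 → ℝ),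
    IsHInfAxisymNS T u p → 0 ≤ t₀ → t₀ < T → Integrable (omr (u t₀)) → ∀ ρ : ℝ → ℝ, Radius T t₀ u ρ → ∀ C : ℝ,
    (∀ t ∈ Ioo t₀ T, ∃ᶠ κ in 𝓝[>] (0:ℝ), ∫ s in t₀..t, netProd (ρ s) κ (u s) ≤
      C + c * Real.log (2 + |Real.log (T - t)|) ^ (1/36 : ℝ)) → LogSmall T u := by
  obtain ⟨c, hc, H⟩ := crit_m
  refine ⟨c, hc, fun T t₀ u p h h0 h1 hi ρ hρ C hN => ?_⟩
  have hb : ∃ K : ℝ, ∀ t ∈ Ioo t₀ T, ∫ s in t₀..t, (∫ x, dsq (u s) x) / ρ s ≤ K := by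
    obtain ⟨K, hK⟩ := hρ.2.2
    refine ⟨K, fun t ht => le_trans (le_of_eq ?_) (hK t ht)⟩
    refine intervalIntegral.integral_congr fun s hs => ?_
    rw [uIcc_of_le ht.1.le] at hs
    show (∫ x, dsq (u s) x) / ρ s = diss (u s) / ρ s
    rw [diss_in h ⟨h0.trans hs.1, lt_of_le_of_lt hs.2 ht.2⟩]
  refine H T t₀ u p h h0 h1 ρ ⟨hρ.1, hρ.2.1, hb⟩ (Br_intg (axF_of h.ns ⟨h0, h1⟩) hi) C fun t ht => ?_
  have h2 := hN t ht
  simp only [Br_net h h0 ρ ht] at h2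
  exact h2

/-- The net production is at most the integral of `sgn(ω_θ) ∂_z (u_θ²) / r²`, in the limit. -/
theorem br_D (h : IsHInfAxisymNS T u p) (h0 : 0 ≤ t₀) {ρ : ℝ → ℝ} (hρ : ContinuousOn ρ (Ico t₀ T)) {t B : ℝ} (ht : t ∈ Ioo t₀ T)
    (hB : ∫ s in t₀..t, ∫ x in {x : E3 | rad x < ρ s}, Real.sign (omr (u s) x) * pd 2 (fun y => vr (u s) y ^ 2) x ≤ B) :
    ∃ᶠ κ in 𝓝[>] (0:ℝ), ∫ s in t₀..t, netProd (ρ s) κ (u s) ≤ B + 1 := by
  simp only [Br_net h h0 ρ ht]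
  refine co_D h h0 hρ ht (le_trans (le_of_eq ?_) hB)
  refine intervalIntegral.integral_congr fun s hs => ?_
  rw [uIcc_of_le ht.1.le] at hs
  have hv := axF_of h.ns ⟨h0.trans hs.1, lt_of_le_of_lt hs.2 ht.2⟩
  refine (Br_int (fun x hx => ?_) (ρ s)).symm
  unfold fi
  rw [omr_eq hv hx, Br_src hv hx]

/-- The pointwise condition near the zeros of `ω_θ`. -/
theorem br_C (h : IsHInfAxisymNS T u p) (h0 : 0 ≤ t₀) {ρ : ℝ → ℝ} (hρ : ContinuousOn ρ (Ico t₀ T)) {t : ℝ} (ht : t ∈ Ioo t₀ T)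
    (hN : ∀ s ∈ Ioo t₀ T, ∃ δ > 0, ∀ x, 0 < rad x → rad x < ρ s → |omr (u s) x| < δ →
      -(vr (u s) x ^ 2 * pd 2 (omr (u s)) x) ≤ gsq (omr (u s)) x) :
    ∃ᶠ κ in 𝓝[>] (0:ℝ), ∫ s in t₀..t, netProd (ρ s) κ (u s) ≤ 0 + 1 := by
  simp only [Br_net h h0 ρ ht]
  refine co_C h h0 hρ ht fun s hs => ?_
  obtain ⟨δ, hδ, hN'⟩ := hN s hs
  have hsT : s ∈ Ico 0 T := ⟨h0.trans hs.1.le, hs.2⟩
  have hv := axF_of h.ns hsT
  obtain ⟨hV, hO⟩ := Nd_sm (flow_of h) hsT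
  refine ⟨δ, hδ, fun x hx hxδ => ?_⟩
  -- off the axis
  have hoff : ∀ y, 0 < rsq y → rad y < ρ s → |sO (u s) y| < δ → -(sV (u s) y ^ 2 * pd 2 (sO (u s)) y) ≤ gsq (sO (u s)) y := by
    intro y hy hyr hyδ
    have h1 := hN' y (Br_rad hy) hyr (by rw [omr_eq hv hy]; exact hyδ)
    rwa [vr_eq hv hy, Br_pd (fun x hx => omr_eq hv hx) hy, Br_gsq (fun x hx => omr_eq hv hx) hy] at h1
  -- points of the axis by continuity
  have c1 : Continuous fun y => -(sV (u s) y ^ 2 * pd 2 (sO (u s)) y) :=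
    ((hV.continuous.pow 2).mul (pd_smooth hO 2).continuous).neg
  have c2 : Continuous (gsq (sO (u s))) := StepJ_gsq_cont (hO.of_le (by exact_mod_cast le_top))
  have hx2 : Tendsto (fun n : ℕ => x + (1 / ((n : ℝ) + 1)) • e 0) atTop (𝓝 x) := by
    have h1 : Tendsto (fun n : ℕ => x + (1 / ((n : ℝ) + 1)) • e 0) atTop (𝓝 (x + (0:ℝ) • e 0)) :=
      (tendsto_one_div_add_atTop_nhds_zero_nat.smul_const _).const_add x
    simpa using h1
  rcases (rad_nonneg x).eq_or_lt with hx0 | hx0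
  · have hrc : Continuous rad := Init_rad_cont
    have ev1 : ∀ᶠ n : ℕ in atTop, rad (x + (1 / ((n : ℝ) + 1)) • e 0) < ρ s :=
      ((hrc.tendsto x).comp hx2).eventually (gt_mem_nhds hx)
    have ev2 : ∀ᶠ n : ℕ in atTop, |sO (u s) (x + (1 / ((n : ℝ) + 1)) • e 0)| < δ :=
      ((hO.continuous.abs.tendsto x).comp hx2).eventually (gt_mem_nhds hxδ)
    have hxx : x 0 = 0 ∧ x 1 = 0 := by
      have h1 := rad_sq' x
      rw [← hx0] at h1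
      unfold rsq at h1
      constructor <;> nlinarith [sq_nonneg (x 0), sq_nonneg (x 1)]
    have hpos : ∀ n : ℕ, 0 < rsq (x + (1 / ((n : ℝ) + 1)) • e 0) := by
      intro n
      have h1 : (0:ℝ) < 1 / ((n : ℝ) + 1) := Nat.one_div_pos_of_nat
      have e1 : (x + (1 / ((n : ℝ) + 1)) • e 0) 0 = 1 / ((n : ℝ) + 1) := by simp [e, hxx.1]
      unfold rsq
      rw [e1]
      positivity
    refine le_of_tendsto_of_tendsto ((c1.tendsto x).comp hx2) ((c2.tendsto x).comp hx2) ?_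
    filter_upwards [ev1, ev2] with n k1 k2
    exact hoff _ (hpos n) k1 k2
  · exact hoff x (Br_pos hx0) hx hxδ

/-- The swirl vanishes between a point with `ω_θ > 0` and a higher point with `ω_θ < 0`. -/
theorem br_P (h : IsHInfAxisymNS T u p) (h0 : 0 ≤ t₀) {ρ : ℝ → ℝ} (hρ : ContinuousOn ρ (Ico t₀ T))
    (hP : ∀ s ∈ Ioo t₀ T, ∀ r ∈ Ioo 0 (ρ s), ∀ z z', z < z' → 0 < omr (u s) !₂[r, 0, z] → omr (u s) !₂[r, 0, z'] < 0 →
      ∃ ζ ∈ Icc z z', u s !₂[r, 0, ζ] 1 = 0) {t : ℝ} (ht : t ∈ Ioo t₀ T) :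
    ∃ᶠ κ in 𝓝[>] (0:ℝ), ∫ s in t₀..t, netProd (ρ s) κ (u s) ≤ 0 + 1 := by
  simp only [Br_net h h0 ρ ht]
  refine co_D h h0 hρ ht (co_P' h h0 (fun s hs w hw0 hw z z' hlt h1 h2 => ?_) ht)
  have hsT : s ∈ Ico 0 T := ⟨h0.trans hs.1.le, hs.2⟩
  have hv := axF_of h.ns hsT
  obtain ⟨r, hr⟩ : ∃ r : ℝ, r = √(w.1 ^ 2 + w.2 ^ 2) := ⟨_, rfl⟩
  rw [← hr] at hw0 hw
  have hrr : r ^ 2 = w.1 ^ 2 + w.2 ^ 2 := by
    rw [hr, Real.sq_sqrt (by positivity)]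
  have hrot : ∀ y : ℝ, ∃ θ : ℝ, rot θ (!₂[r, 0, y] : E3) = ct (y, w) := by
    intro y
    have h4 : 0 < rsq (ct (y, w)) := by
      have : rsq (ct (y, w)) = w.1 ^ 2 + w.2 ^ 2 := rfl
      rw [this, ← hrr]
      positivity
    have h5 : rsq (!₂[r, 0, y] : E3) = rsq (ct (y, w)) := by
      have e1 : rsq (ct (y, w)) = w.1 ^ 2 + w.2 ^ 2 := rfl
      rw [e1, ← hrr]
      unfold rsq
      simp
    obtain ⟨θ, hθ, _⟩ := KSym_rot (y := (!₂[r, 0, y] : E3)) (z := ct (y, w)) (by rw [h5]; exact h4) h5.symm rfl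
    exact ⟨θ, hθ⟩
  have hsq : ∀ y : ℝ, rsq (!₂[r, 0, y] : E3) = r ^ 2 := by
    intro y
    unfold rsq
    simp
  have hO : ∀ y : ℝ, omr (u s) !₂[r, 0, y] = sO (u s) (ct (y, w)) := by
    intro y
    obtain ⟨θ, hθ⟩ := hrot y
    rw [← hθ, sO_rot hv]
    exact omr_eq hv (by rw [hsq]; positivity)
  have hVv : ∀ y : ℝ, r * sV (u s) (ct (y, w)) = u s !₂[r, 0, y] 1 := by
    intro y
    obtain ⟨θ, hθ⟩ := hrot y
    rw [← hθ, sV_rot hv]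
    have h4 := circ_eq hv (!₂[r, 0, y] : E3)
    rw [hsq] at h4
    have h5 : circ (u s) (!₂[r, 0, y] : E3) = r * u s !₂[r, 0, y] 1 := by
      unfold circ
      simp
    rw [h5] at h4
    have h6 : r * u s !₂[r, 0, y] 1 = r * (r * sV (u s) !₂[r, 0, y]) := by rw [h4]; ring
    exact (mul_left_cancel₀ hw0.ne' h6).symm
  have g1 : 0 < omr (u s) !₂[r, 0, z] := by
    rw [hO z]
    exact h1
  have g2 : omr (u s) !₂[r, 0, z'] < 0 := by
    rw [hO z']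
    exact h2
  obtain ⟨ζ, hζ, h7⟩ := hP s hs r ⟨hw0, hw⟩ z z' hlt g1 g2
  refine ⟨ζ, hζ, ?_⟩
  rw [← hVv ζ] at h7
  exact (mul_eq_zero.1 h7).resolve_left hw0.ne'

/-- Only the region where `σ ω_θ < 0` counts. -/
theorem br_N (h : IsHInfAxisymNS T u p) (h0 : 0 ≤ t₀) {ρ : ℝ → ℝ} (hρ : ContinuousOn ρ (Ico t₀ T)) {t B : ℝ} (ht : t ∈ Ioo t₀ T)
    {σ : ℝ} (hσ : σ = 1 ∨ σ = -1)
    (hB : ∫ s in t₀..t, ∫ x in {x : E3 | rad x < ρ s ∧ σ * omr (u s) x < 0}, -(σ * pd 2 (fun y => vr (u s) y ^ 2) x) ≤ B) :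
    ∃ᶠ κ in 𝓝[>] (0:ℝ), ∫ s in t₀..t, netProd (ρ s) κ (u s) ≤ 2 * B + 1 := by
  simp only [Br_net h h0 ρ ht]
  refine co_D h h0 hρ ht ?_
  have hT : ∀ s ∈ Ioc t₀ t, s ∈ Ioo 0 T := fun s hs => ⟨lt_of_le_of_lt h0 hs.1, lt_of_le_of_lt hs.2 ht.2⟩
  have e1 : ∫ s in t₀..t, ∫ x in cylr (ρ s), fi (fun t => sV (u t)) (fun t => sO (u t)) s x =
      ∫ s in t₀..t, 2 * ∫ x in {x : E3 | rad x < ρ s ∧ σ * omr (u s) x < 0}, -(σ * pd 2 (fun y => vr (u s) y ^ 2) x) := by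
    refine intervalIntegral.integral_congr_ae ?_
    filter_upwards [co_N h hσ] with s hs hm
    rw [uIoc_of_le ht.1.le] at hm
    have hv := axF_of h.ns ⟨(hT s hm).1.le, (hT s hm).2⟩
    rw [hs (hT s hm) (ρ s)]
    congr 1
    have e2 : ({x | rad x < ρ s ∧ σ * sO (u s) x < 0} : Set E3) =ᵐ[volume] {x | rad x < ρ s ∧ σ * omr (u s) x < 0} := by
      filter_upwards [z_axis] with x hx
      show (rad x < ρ s ∧ σ * sO (u s) x < 0) = (rad x < ρ s ∧ σ * omr (u s) x < 0)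
      rw [omr_eq hv hx]
    rw [setIntegral_congr_set e2]
    refine integral_congr_ae (ae_restrict_of_ae ?_)
    filter_upwards [z_axis] with x hx
    rw [Br_src hv hx]
  rw [e1, intervalIntegral.integral_const_mul]
  linarith

/-- The integral of `|∂_z (u_θ²)| / r²`. -/
theorem br_I (h : IsHInfAxisymNS T u p) (h0 : 0 ≤ t₀) {ρ : ℝ → ℝ} (hρ : ContinuousOn ρ (Ico t₀ T)) {t B : ℝ} (ht : t ∈ Ioo t₀ T)
    (hB : ∫ s in t₀..t, ∫ x in {x : E3 | rad x < ρ s}, |pd 2 (fun y => vr (u s) y ^ 2) x| ≤ B) :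
    ∃ᶠ κ in 𝓝[>] (0:ℝ), ∫ s in t₀..t, netProd (ρ s) κ (u s) ≤ B + 1 := by
  have F := flow_of h
  have hT : ∀ s ∈ Icc t₀ t, s ∈ Ico 0 T := fun s hs => ⟨h0.trans hs.1, lt_of_le_of_lt hs.2 ht.2⟩
  simp only [Br_net h h0 ρ ht]
  refine co_D h h0 hρ ht (le_trans ?_ hB)
  have e1 : ∫ s in t₀..t, ∫ x in {x : E3 | rad x < ρ s}, |pd 2 (fun y => vr (u s) y ^ 2) x| =
      ∫ s in t₀..t, ∫ x in cylr (ρ s), |src (sV (u s)) x| := by
    refine intervalIntegral.integral_congr fun s hs => ?_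
    rw [uIcc_of_le ht.1.le] at hs
    refine Br_int (fun x hx => ?_) (ρ s)
    rw [Br_src (axF_of h.ns (hT s hs)) hx]
  rw [e1]
  obtain ⟨K, _, hK⟩ := src_bd F ht.2
  have ha : JC T (fun s x => |src (sV (u s)) x|) := by
    have := src_jc F
    unfold JC at this ⊢
    exact this.abs
  obtain ⟨ρ', hρ', hρe⟩ := cext ht.1.le (hρ.mono fun s hs => ⟨hs.1, lt_of_le_of_lt hs.2 ht.2⟩)
  have j1 : IntervalIntegrable (fun s => ∫ x in cylr (ρ' s), |src (sV (u s)) x|) volume t₀ t := by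
    rw [intervalIntegrable_iff_integrableOn_Icc_of_le ht.1.le]
    refine Integrable.of_bound (sg_meas ha (cylr_MF hρ') h0 ht.2) K ?_
    refine ae_restrict_of_forall_mem measurableSet_Icc fun s hs => ?_
    exact sg_nrm hK ⟨h0.trans hs.1, hs.2⟩ (cylr (ρ' s)) (hK s ⟨h0.trans hs.1, hs.2⟩).1.abs fun x => by rw [abs_abs]
  have j2 : IntervalIntegrable (fun s => ∫ x in cylr (ρ s), |src (sV (u s)) x|) volume t₀ t := by
    refine j1.congr fun s hs => ?_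
    rw [uIoc_of_le ht.1.le] at hs
    show ∫ x in cylr (ρ' s), |src (sV (u s)) x| = ∫ x in cylr (ρ s), |src (sV (u s)) x|
    rw [hρe s ⟨hs.1.le, hs.2⟩]
  refine intervalIntegral.integral_mono_on ht.1.le (co_ii h h0 hρ ht) j2 fun s hs => ?_
  have h2 := (hK s ⟨h0.trans hs.1, hs.2⟩).1
  exact integral_mono (fi_int F (hT s hs)).integrableOn h2.abs.integrableOn
    fun x => (le_abs_self _).trans (fi_le s x)

end Pool.Agent.H73.SG
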