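/-
Admissible radii.
-/
import Pool.Agent.H73.SG.Br

set_option autoImplicit false

open Set Filter Topology MeasureTheory
open scoped ContDiff

namespace Pool.Agent.H73.SG

open Pool.Agent.H16 Pool.Agent.H87.NS Pool.Agent.H72.CC

variable {T t₀ : ℝ} {u : ℝ → E3 → E3} {p : ℝ → E3 → ℝ}

theorem diss_nn (v : E3 → E3) : 0 ≤ diss v :=
  integral_nonneg fun x => Finset.sum_nonneg fun _ _ => gsq_nonneg _ _

theorem diss_ii (h : IsHInfAxisymNS T u p) {a b : ℝ} (ha : 0 ≤ a) (hab : a ≤ b) (hb : b < T) :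
    IntervalIntegrable (fun t => diss (u t)) volume a b := by
  refine (dsq_ii h ha hab hb).congr fun t ht => ?_
  rw [uIoc_of_le hab] at ht
  exact (diss_in h ⟨ha.trans ht.1.le, ht.2.trans_lt hb⟩).symm

theorem diss_le (h : IsHInfAxisymNS T u p) {t : ℝ} (ht : t ∈ Ico 0 T) :
    ∫ s in (0:ℝ)..t, diss (u s) ≤ (∫ x, ‖u 0 x‖ ^ 2) / 2 := by
  refine le_trans (le_of_eq ?_) (energy1 h ht).1
  refine intervalIntegral.integral_congr fun s hs => ?_
  rw [uIcc_of_le ht.1] at hs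
  exact diss_in h ⟨hs.1, lt_of_le_of_lt hs.2 ht.2⟩

/-- Constant radii. -/
theorem rad_const (h : IsHInfAxisymNS T u p) (h0 : 0 ≤ t₀) {r₀ : ℝ} (hr : 0 < r₀) : Radius T t₀ u (fun _ => r₀) := by
  refine ⟨continuousOn_const, fun _ _ => hr, (∫ x, ‖u 0 x‖ ^ 2) / 2 / r₀, fun t ht => ?_⟩
  have e1 : ∫ s in t₀..t, diss (u s) / r₀ = (∫ s in t₀..t, diss (u s)) / r₀ := intervalIntegral.integral_div _ _
  rw [e1]
  refine div_le_div_of_nonneg_right ?_ hr.le
  have h1 : ∫ s in t₀..t, diss (u s) ≤ ∫ s in (0:ℝ)..t, diss (u s) :=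
    intervalIntegral.integral_mono_interval h0 ht.1.le le_rfl (Eventually.of_forall fun t => diss_nn (u t))
      (diss_ii h le_rfl (h0.trans ht.1.le) ht.2)
  exact h1.trans (diss_le h ⟨h0.trans ht.1.le, ht.2⟩)

/-- Integrability up to the time `T`. -/
theorem diss_T (h : IsHInfAxisymNS T u p) (hT : 0 < T) : IntervalIntegrable (fun t => diss (u t)) volume 0 T := by
  rw [intervalIntegrable_iff_integrableOn_Ioc_of_le hT.le]
  have hb : ∀ n : ℕ, 0 ≤ T - T * (1 / ((n:ℝ) + 1)) ∧ T - T * (1 / ((n:ℝ) + 1)) < T := by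
    intro n
    have h1 : (0:ℝ) < 1 / ((n:ℝ) + 1) := Nat.one_div_pos_of_nat
    have h2 : (1:ℝ) / ((n:ℝ) + 1) ≤ 1 := by
      rw [div_le_one (by positivity)]
      have : (0:ℝ) ≤ n := Nat.cast_nonneg n
      linarith
    constructor
    · nlinarith
    · nlinarith
  have hl : Tendsto (fun n : ℕ => T - T * (1 / ((n:ℝ) + 1))) atTop (𝓝 T) := by
    have := ((tendsto_one_div_add_atTop_nhds_zero_nat (𝕜 := ℝ)).const_mul T).const_sub T
    simpa using this
  refine integrableOn_Ioc_of_intervalIntegral_norm_bounded_right (I := (∫ x, ‖u 0 x‖ ^ 2) / 2) (fun n => ?_) hl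
    (Eventually.of_forall fun n => ?_)
  · exact (diss_ii h le_rfl (hb n).1 (hb n).2).1
  · have h1 := diss_le h ⟨(hb n).1, (hb n).2⟩
    rw [intervalIntegral.integral_of_le (hb n).1] at h1
    refine le_trans (le_of_eq ?_) h1
    exact integral_congr_ae (Eventually.of_forall fun s => Real.norm_of_nonneg (diss_nn _))

theorem rem_ii (h : IsHInfAxisymNS T u p) {a b : ℝ} (ha : 0 ≤ a) (hab : a ≤ b) (hb : b ≤ T) (hT : 0 < T) :
    IntervalIntegrable (fun t => diss (u t)) volume a b := by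
  refine (diss_T h hT).mono_set ?_
  rw [uIcc_of_le hab, uIcc_of_le hT.le]
  exact Icc_subset_Icc ha hb

/-- Powers of the remaining dissipation. -/
theorem rad_diss (h : IsHInfAxisymNS T u p) (h0 : 0 ≤ t₀) (h1 : t₀ < T) {θ : ℝ} (hθ : θ < 1)
    (hD : ∀ t ∈ Ico t₀ T, 0 < ∫ s in t..T, diss (u s)) : Radius T t₀ u (fun t => (∫ s in t..T, diss (u s)) ^ θ) := by
  have hT : 0 < T := lt_of_le_of_lt h0 h1
  obtain ⟨g, hg⟩ : ∃ g : ℝ → ℝ, g = fun t => diss (u t) := ⟨_, rfl⟩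
  obtain ⟨D, hDd⟩ : ∃ D : ℝ → ℝ, D = fun t => ∫ s in t..T, g s := ⟨_, rfl⟩
  have hg0 : ∀ t, 0 ≤ g t := fun t => by rw [hg]; exact diss_nn _
  have hgi : ∀ a b : ℝ, 0 ≤ a → a ≤ b → b ≤ T → IntervalIntegrable g volume a b := fun a b ha hab hb => by
    rw [hg]
    exact rem_ii h ha hab hb hT
  have hDp : ∀ t ∈ Ico t₀ T, 0 < D t := fun t ht => by rw [hDd, hg]; exact hD t ht
  have hDe : ∀ t ∈ Icc t₀ T, D t = D t₀ - ∫ s in t₀..t, g s := by
    intro t ht
    have e1 := intervalIntegral.integral_add_adjacent_intervals (hgi t₀ t h0 ht.1 ht.2) (hgi t T (h0.trans ht.1) ht.2 le_rfl)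
    rw [hDd]
    show ∫ s in t..T, g s = (∫ s in t₀..T, g s) - ∫ s in t₀..t, g s
    linarith
  have hDc : ContinuousOn D (Icc t₀ T) := by
    have e1 := intervalIntegral.continuousOn_primitive_interval' (hgi t₀ T h0 h1.le le_rfl) (left_mem_uIcc)
    rw [uIcc_of_le h1.le] at e1
    exact (continuousOn_const.sub e1).congr hDe
  show Radius T t₀ u (fun t => (∫ s in t..T, diss (u s)) ^ θ)
  have e0 : (fun t => (∫ s in t..T, diss (u s)) ^ θ) = fun t => D t ^ θ := by rw [hDd, hg]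
  rw [e0]
  have hθ' : 0 < 1 - θ := by linarith
  refine ⟨?_, fun t ht => Real.rpow_pos_of_pos (hDp t ht) _, D t₀ ^ (1 - θ) / (1 - θ), fun t ht => ?_⟩
  · exact (hDc.mono Ico_subset_Icc_self).rpow_const fun t ht => Or.inl (hDp t ht).ne'
  · have hsub : Icc t₀ t ⊆ Ico t₀ T := fun s hs => ⟨hs.1, lt_of_le_of_lt hs.2 ht.2⟩
    obtain ⟨f, hf⟩ : ∃ f : ℝ → ℝ, f = fun s => -(D s ^ (1 - θ) / (1 - θ)) := ⟨_, rfl⟩
    have hm : MonotoneOn f (uIcc t₀ t) := by
      rw [uIcc_of_le ht.1.le, hf]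
      intro a ha b hb hab
      show -(D a ^ (1 - θ) / (1 - θ)) ≤ -(D b ^ (1 - θ) / (1 - θ))
      have e1 := intervalIntegral.integral_add_adjacent_intervals (hgi a b (h0.trans ha.1) hab (hb.2.trans ht.2.le))
        (hgi b T (h0.trans hb.1) (hb.2.trans ht.2.le) le_rfl)
      have e2 : 0 ≤ ∫ s in a..b, g s := intervalIntegral.integral_nonneg hab fun s _ => hg0 s
      have e3 : D b ≤ D a := by
        rw [hDd]
        show ∫ s in b..T, g s ≤ ∫ s in a..T, g s
        linarith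
      have e4 := Real.rpow_le_rpow (hDp b (hsub hb)).le e3 hθ'.le
      have e5 := div_le_div_of_nonneg_right e4 hθ'.le
      linarith
    have hder : ∀ᵐ s, s ∈ uIoc t₀ t → deriv f s = diss (u s) / D s ^ θ := by
      filter_upwards [(hgi t₀ t h0 ht.1.le ht.2.le).ae_hasDerivAt_integral, compl_mem_ae_iff.2 (measure_singleton t)]
        with s hs hst hm
      rw [uIoc_of_le ht.1.le] at hm
      have k1 := hs (by rw [uIcc_of_le ht.1.le]; exact ⟨hm.1.le, hm.2⟩) t₀ left_mem_uIcc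
      have hst' : s < t := lt_of_le_of_ne hm.2 hst
      have k2 : HasDerivAt D (-g s) s := by
        refine (k1.const_sub (D t₀)).congr_of_eventuallyEq ?_
        filter_upwards [Ioo_mem_nhds hm.1 hst'] with τ hτ
        exact hDe τ ⟨hτ.1.le, hτ.2.le.trans ht.2.le⟩
      have hDs := hDp s ⟨hm.1.le, hst'.trans ht.2⟩
      have k3 := ((k2.rpow_const (p := 1 - θ) (Or.inl hDs.ne')).div_const (1 - θ)).neg
      have k4 : deriv f s = -((-g s) * (1 - θ) * D s ^ (1 - θ - 1) / (1 - θ)) := by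
        rw [hf]
        exact k3.deriv
      rw [k4]
      have k5 : D s ^ (1 - θ - 1) = (D s ^ θ)⁻¹ := by
        rw [← Real.rpow_neg hDs.le]
        congr 1
        ring
      have k6 : diss (u s) = g s := by rw [hg]
      rw [k5, k6]
      field_simp
    have k1 := hm.intervalIntegral_deriv_mem_uIcc
    have k2 : ∫ s in t₀..t, diss (u s) / D s ^ θ = ∫ s in t₀..t, deriv f s := by
      refine intervalIntegral.integral_congr_ae ?_
      filter_upwards [hder] with s hs hm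
      exact (hs hm).symm
    have k3 : 0 ≤ f t - f t₀ := sub_nonneg.2 (hm left_mem_uIcc right_mem_uIcc ht.1.le)
    rw [uIcc_of_le k3] at k1
    have k4 : f t ≤ 0 := by
      rw [hf]
      show -(D t ^ (1 - θ) / (1 - θ)) ≤ 0
      have := Real.rpow_nonneg (hDp t ⟨ht.1.le, ht.2⟩).le (1 - θ)
      have := div_nonneg this hθ'.le
      linarith
    have k5 : -f t₀ = D t₀ ^ (1 - θ) / (1 - θ) := by
      rw [hf]
      show - -(D t₀ ^ (1 - θ) / (1 - θ)) = D t₀ ^ (1 - θ) / (1 - θ)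
      ring
    rw [k2, ← k5]
    linarith [k1.2]

end Pool.Agent.H73.SG
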