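/-
Flows with zero dissipation.
-/
import Pool.Agent.H73.SG.Rem

set_option autoImplicit false

open Set Filter Topology MeasureTheory
open scoped ContDiff

namespace Pool.Agent.H73.SG

open Pool.Agent.H16 Pool.Agent.H87.NS Pool.Agent.H72.CC

variable {T t₀ : ℝ} {u : ℝ → E3 → E3} {p : ℝ → E3 → ℝ}

theorem Tr_V (h : IsHInfAxisymNS T u p) {t : ℝ} (ht : t ∈ Ico 0 T) (hz : diss (u t) = 0) (x : E3) : sV (u t) x = 0 := by
  have hv := axF_of h.ns ht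
  have hVc : Continuous (sV (u t)) := (Nd_sm (flow_of h) ht).1.continuous
  have h1 : ∫ x, dsq (u t) x = 0 := by rw [← diss_in h ht, hz]
  have h2 := (integral_eq_zero_iff_of_nonneg (fun x => dsq_nn (u t) x) (dsq_int h ht).1).1 h1
  have h3 : sV (u t) =ᵐ[volume] fun _ => (0:ℝ) := by
    filter_upwards [h2, z_axis] with y hy hy0
    have h4 := Far_V hv (Br_rad hy0)
    have h5 : dsq (u t) y = ‖fderiv ℝ (u t) y (e 0)‖ ^ 2 + ‖fderiv ℝ (u t) y (e 1)‖ ^ 2 + ‖fderiv ℝ (u t) y (e 2)‖ ^ 2 := by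
      unfold dsq
      rw [Fin.sum_univ_three]
    have h6 : dsq (u t) y = 0 := hy
    have h7 : sV (u t) y ^ 2 = 0 := by
      have := sq_nonneg ‖fderiv ℝ (u t) y (e 2)‖
      have := sq_nonneg (sV (u t) y)
      linarith
    exact pow_eq_zero_iff two_ne_zero |>.1 h7
  have h4 := (hVc.ae_eq_iff_eq volume continuous_const).1 h3
  exact congrFun h4 x

theorem Tr_ct {V : ℝ → E3 → ℝ} (hV : JC T V) (x : E3) : ContinuousOn (fun s => V s x) (Ico 0 T) := by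
  have h4 : ContinuousOn (fun s : ℝ => (s, x)) (Ico 0 T) := (continuous_id.prodMk continuous_const).continuousOn
  exact ContinuousOn.comp (t := Ico 0 T ×ˢ univ) hV h4 fun s hs => ⟨hs, mem_univ _⟩

/-- A continuous function which vanishes almost everywhere on an interval. -/
theorem Tr_ae {f : ℝ → ℝ} {a b : ℝ} (hc : ContinuousOn f (Ioo a b)) (h : ∀ᵐ s : ℝ, s ∈ Ioo a b → f s = 0) {t : ℝ}
    (ht : t ∈ Ioo a b) : f t = 0 := by
  by_contra hne
  obtain ⟨S, hSo, hS⟩ := (continuousOn_iff'.1 hc) {y : ℝ | y ≠ 0} isOpen_ne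
  have hmem : t ∈ S ∩ Ioo a b := by
    rw [← hS]
    exact ⟨hne, ht⟩
  have hpos : 0 < volume (S ∩ Ioo a b) := (hSo.inter isOpen_Ioo).measure_pos volume ⟨t, hmem⟩
  have hzero : volume (S ∩ Ioo a b) = 0 := by
    rw [← hS]
    refine measure_mono_null ?_ (ae_iff.1 h)
    rintro s ⟨hs1, hs2⟩ hcon
    exact hs1 (hcon hs2)
  exact hpos.ne' hzero

/-- Without dissipation near the time `T` the flow is regular. -/
theorem diss_zero (h : IsHInfAxisymNS T u p) {t₁ : ℝ} (ht₁ : t₁ ∈ Ico 0 T) (hz : ∫ s in t₁..T, diss (u s) = 0) : LogSmall T u := by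
  have hT : 0 < T := lt_of_le_of_lt ht₁.1 ht₁.2
  have F := flow_of h
  have h1 := (intervalIntegral.integral_eq_zero_iff_of_le_of_nonneg_ae ht₁.2.le
    (Eventually.of_forall fun s => diss_nn (u s)) (rem_ii h ht₁.1 ht₁.2.le le_rfl hT)).1 hz
  have h2 : ∀ᵐ s : ℝ, s ∈ Ioc t₁ T → diss (u s) = 0 := by
    rw [EventuallyEq, ae_restrict_iff' measurableSet_Ioc] at h1
    exact h1
  have hV0 : ∀ t ∈ Ioo t₁ T, ∀ x, sV (u t) x = 0 := by
    intro t ht x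
    have hsub : Ioo t₁ T ⊆ Ico 0 T := fun s hs => ⟨ht₁.1.trans hs.1.le, hs.2⟩
    refine Tr_ae (f := fun s => sV (u s) x) ((Tr_ct F.evV.cont x).mono hsub) ?_ ht
    filter_upwards [h2] with s hs hm
    exact Tr_V h (hsub hm) (hs ⟨hm.1, hm.2.le⟩) x
  obtain ⟨t₂, ht₂⟩ : ∃ t₂ : ℝ, t₂ = (t₁ + T) / 2 := ⟨_, rfl⟩
  have k1 : t₂ < T := by
    have := ht₁.2
    linarith
  have k2 : t₁ < t₂ := by
    have := ht₁.2
    linarith
  obtain ⟨K, hK⟩ := F.evV.bd t₂ k1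
  intro α
  obtain ⟨r₂, hr₂0, hr₂1, hr₂⟩ := MainA_sq (K := K) α
  refine ⟨r₂, hr₂0, hr₂1, fun t ht x hx0 hx => ?_⟩
  refine le_trans ?_ (hr₂ (rad x) hx0 hx)
  have hK0 : 0 ≤ K := BL_nonneg (DB_BL (hK 0 ⟨le_rfl, ht₁.1.trans k2.le⟩).1)
  rw [circ_eq (axF_of h.ns ht) x, abs_mul, abs_of_pos (Br_pos hx0), ← rad_sq', mul_comm]
  refine mul_le_mul_of_nonneg_right ?_ (by positivity)
  rcases le_or_gt t t₂ with h3 | h3
  · exact (DB_BL (hK t ⟨ht.1, h3⟩).1).1 x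
  · rw [hV0 t ⟨k2.trans h3, ht.2⟩ x, abs_zero]
    exact hK0

end Pool.Agent.H73.SG
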